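import Mathlib

/-!
Boolean sign calculus for abstract order types on at most six points.
`true` stands for a counterclockwise triple.
-/

namespace Pool.Agent.LibOT

/-- sign form of the three-term relation at one apex -/
def gp (abc ade abd ace abe acd : Bool) : Bool :=
  !((abc == ade) && (abd != ace) && (abe == acd)) &&
    !((abc != ade) && (abd == ace) && (abe != acd))

/-- validity of the four signs of a 4-point set (canonical order) -/
def v4 (x123 x124 x134 x234 : Bool) : Bool :=
  !(x234 && !x134 && x124 && !x123) && !(!x234 && x134 && !x124 && x123)

/-- validity of the ten signs of a 5-point set (canonical order) -/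
def v5 (x123 x124 x125 x134 x135 x145 x234 x235 x245 x345 : Bool) : Bool :=
  gp x123 x145 x124 x135 x125 x134 && gp (!x123) x245 (!x124) x235 (!x125) x234 &&
    gp x123 x345 (!x134) (!x235) (!x135) (!x234) &&
    gp x124 (!x345) x134 (!x245) (!x145) x234 &&
    gp x125 x345 x135 x245 x145 x235 &&
    v4 x123 x124 x134 x234 && v4 x123 x125 x135 x235 && v4 x124 x125 x145 x245 &&
    v4 x134 x135 x145 x345 && v4 x234 x235 x245 x345

/-- segment `12` crosses segment `34` -/
def crA (x123 x124 x134 x234 : Bool) : Bool := (x123 != x124) && (x134 != x234)
/-- segment `13` crosses segment `24` -/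
def crB (x123 x124 x134 x234 : Bool) : Bool := (x123 == x134) && (x124 == x234)
/-- segment `14` crosses segment `23` -/
def crC (x123 x124 x134 x234 : Bool) : Bool := (x124 != x134) && (x123 != x234)

/-- every crossing of the first 4-point set is a crossing of the second -/
def cont4 (p123 p124 p134 p234 q123 q124 q134 q234 : Bool) : Bool :=
  (!crA p123 p124 p134 p234 || crA q123 q124 q134 q234) &&
    (!crB p123 p124 p134 p234 || crB q123 q124 q134 q234) &&
    (!crC p123 p124 p134 p234 || crC q123 q124 q134 q234)

/-- point `1` lies inside triangle `234` -/
def in1 (x123 x124 x134 _x234 : Bool) : Bool := (x123 == x134) && (x123 != x124)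
/-- point `2` lies inside triangle `134` -/
def in2 (x123 x124 _x134 x234 : Bool) : Bool := (x124 == x234) && (x123 != x234)
/-- point `3` lies inside triangle `124` -/
def in3 (x123 _x124 x134 x234 : Bool) : Bool := (x123 == x134) && (x123 != x234)
/-- point `4` lies inside triangle `123` -/
def in4 (_x123 x124 x134 x234 : Bool) : Bool := (x124 == x234) && (x124 != x134)

theorem v4_not : ∀ a b c d : Bool, v4 (!a) (!b) (!c) (!d) = v4 a b c d := by decide

theorem gp_not : ∀ a b c d e f : Bool, gp (!a) (!b) (!c) (!d) (!e) (!f) = gp a b c d e f := by
  decide

theorem v5_not : ∀ x123 x124 x125 x134 x135 x145 x234 x235 x245 x345 : Bool,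
    v5 (!x123) (!x124) (!x125) (!x134) (!x135) (!x145) (!x234) (!x235) (!x245) (!x345)
      = v5 x123 x124 x125 x134 x135 x145 x234 x235 x245 x345 := by
  intro x123 x124 x125 x134 x135 x145 x234 x235 x245 x345
  unfold v5
  simp only [v4_not, gp_not]

theorem cont4_not : ∀ a b c d e f g h : Bool,
    cont4 a b c d (!e) (!f) (!g) (!h) = cont4 a b c d e f g h := by decide

theorem cont4_not' : ∀ a b c d e f g h : Bool,
    cont4 (!a) (!b) (!c) (!d) e f g h = cont4 a b c d e f g h := by decide

/-- A1, opposite side transfer: points `1, 2, 4` extreme in the first configuration. -/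
theorem opp_transfer : ∀ p123 p124 p134 p234 q123 q124 q134 q234 : Bool,
    v4 p123 p124 p134 p234 = true → v4 q123 q124 q134 q234 = true →
    cont4 p123 p124 p134 p234 q123 q124 q134 q234 = true →
    in1 p123 p124 p134 p234 = false → in2 p123 p124 p134 p234 = false →
    in4 p123 p124 p134 p234 = false →
    p123 ≠ p124 → q123 ≠ q124 := by decide

/-- A1, same side transfer: all four points extreme in the first configuration. -/
theorem same_transfer : ∀ p123 p124 p134 p234 q123 q124 q134 q234 : Bool,
    v4 p123 p124 p134 p234 = true → v4 q123 q124 q134 q234 = true →
    cont4 p123 p124 p134 p234 q123 q124 q134 q234 = true →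
    in1 p123 p124 p134 p234 = false → in2 p123 p124 p134 p234 = false →
    in3 p123 p124 p134 p234 = false → in4 p123 p124 p134 p234 = false →
    p123 = p124 → q123 = q124 := by decide

/-- an interior point sees a positively spanning triple -/
theorem span_contra : ∀ e x134 x135 x145 x234 x235 x345 : Bool,
    v5 e e e x134 x135 x145 x234 x235 x234 x345 = true → x234 ≠ !x235 := by decide

/-- A2 core, order `(a, b, b', w, w')` -/
theorem a2_core : ∀ p234 p235 p245 p345 q245 q345 : Bool,
    v5 true true true false false true p234 p235 p245 p345 = true →
    v5 true true true false false false p234 p235 q245 q345 = true →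
    cont4 true true true p245 true true false q245 = true →
    cont4 false false true p345 false false false q345 = true →
    cont4 p234 p235 p245 p345 p234 p235 q245 q345 = true → False := by decide

/-- A3, first step: `a` extreme, triple `xyz` positive in the first and negative in the second -/
theorem a3_cone : ∀ axy axz ayz : Bool,
    v4 axy axz ayz true = true → v4 axy axz ayz false = true →
    cont4 axy axz ayz true axy axz ayz false = true → in1 axy axz ayz true = false →
    ((ayz && axz && !axy) || (!ayz && !axz && !axy) || (!ayz && axz && axy)) = true := by decide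

/-- validity of six points -/
def v6 (x123 x124 x125 x126 x134 x135 x136 x145 x146 x156
    x234 x235 x236 x245 x246 x256 x345 x346 x356 x456 : Bool) : Bool :=
  v5 x123 x124 x125 x134 x135 x145 x234 x235 x245 x345 &&
  v5 x123 x124 x126 x134 x136 x146 x234 x236 x246 x346 &&
  v5 x123 x125 x126 x135 x136 x156 x235 x236 x256 x356 &&
  v5 x124 x125 x126 x145 x146 x156 x245 x246 x256 x456 &&
  v5 x134 x135 x136 x145 x146 x156 x345 x346 x356 x456 &&
  v5 x234 x235 x236 x245 x246 x256 x345 x346 x356 x456

/-- three points in the three vertex cones of a positive triangle form a positive triple -/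
theorem six1 : ∀ x145 x245 x345 : Bool,
    v5 true false false true false x145 true false x245 x345 = true → ∀ x146 x246 x346 : Bool,
    v5 true false true true true x146 true false x246 x346 = true → ∀ x156 x256 x356 : Bool,
    v5 true false true false true x156 false false x256 x356 = true → ∀ x456 : Bool,
    v5 false false true x145 x146 x156 x245 x246 x256 x456 = true →
    v5 true false true x145 x146 x156 x345 x346 x356 x456 = true →
    v5 true false false x245 x246 x256 x345 x346 x356 x456 = true → x456 = true := by decide

/-- three points beyond the three edges of a positive triangle form a positive triple -/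
theorem six2 : ∀ x145 x245 x345 : Bool,
    v5 true true true false true x145 false true x245 x345 = true → ∀ x146 x246 x346 : Bool,
    v5 true true false false false x146 false true x246 x346 = true → ∀ x156 x256 x356 : Bool,
    v5 true true false true false x156 true true x256 x356 = true → ∀ x456 : Bool,
    v5 true true false x145 x146 x156 x245 x246 x256 x456 = true →
    v5 false true false x145 x146 x156 x345 x346 x356 x456 = true →
    v5 false true true x245 x246 x256 x345 x346 x356 x456 = true → x456 = true := by decide

end Pool.Agent.LibOT
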