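import Mathlib
import Pool.Agent.LibOT.Bool

namespace Pool.Agent.LibOT

theorem bne1 : ∀ p e : Bool, p ≠ e → p = !e := by decide
theorem bne2 : ∀ e : Bool, (!!e) = !e → False := by decide
theorem bne3 : ∀ e : Bool, (!e) = !!e → False := by decide

/-- An abstract orientation predicate: `s a b c` says that `a, b, c` is counterclockwise. -/
structure Chir (V : Type) where
  s : V → V → V → Bool
  rot : ∀ a b c, s b c a = s a b c
  swap : ∀ a b c, a ≠ b → b ≠ c → a ≠ c → s b a c = !s a b c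
  four : ∀ a b c d, a ≠ b → a ≠ c → a ≠ d → b ≠ c → b ≠ d → c ≠ d →
    v4 (s a b c) (s a b d) (s a c d) (s b c d) = true
  five : ∀ a b c d e, a ≠ b → a ≠ c → a ≠ d → a ≠ e → b ≠ c → b ≠ d → b ≠ e → c ≠ d → c ≠ e →
    d ≠ e → v5 (s a b c) (s a b d) (s a b e) (s a c d) (s a c e) (s a d e)
      (s b c d) (s b c e) (s b d e) (s c d e) = true

namespace Chir

variable {V : Type} (X : Chir V)

theorem swap' (a b c : V) (h1 : a ≠ b) (h2 : b ≠ c) (h3 : a ≠ c) : X.s a c b = !X.s a b c := by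
  rw [← X.rot a c b, ← X.rot c b a, X.swap a b c h1 h2 h3]

theorem swap_true {a b c : V} (h1 : a ≠ b) (h2 : b ≠ c) (h3 : a ≠ c) (h : X.s a b c = false) :
    X.s a c b = true := by rw [X.swap' a b c h1 h2 h3, h]; rfl

theorem swap_false {a b c : V} (h1 : a ≠ b) (h2 : b ≠ c) (h3 : a ≠ c) (h : X.s a b c = true) :
    X.s a c b = false := by rw [X.swap' a b c h1 h2 h3, h]; rfl

/-- mirror image -/
def mirror : Chir V where
  s a b c := !X.s a b c
  rot a b c := by rw [X.rot]
  swap a b c h1 h2 h3 := by rw [X.swap a b c h1 h2 h3]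
  four a b c d h1 h2 h3 h4 h5 h6 := by rw [v4_not]; exact X.four a b c d h1 h2 h3 h4 h5 h6
  five a b c d e h1 h2 h3 h4 h5 h6 h7 h8 h9 h10 := by
    rw [v5_not]; exact X.five a b c d e h1 h2 h3 h4 h5 h6 h7 h8 h9 h10

/-- the segments `a b` and `c d` cross (for distinct points) -/
def cr (a b c d : V) : Prop := X.s a b c ≠ X.s a b d ∧ X.s c d a ≠ X.s c d b

theorem cr_mirror (a b c d : V) : X.mirror.cr a b c d ↔ X.cr a b c d := by
  unfold cr mirror
  simp

end Chir

/-- `H` is the set of extreme points of `X`. -/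
structure HullData {V : Type} (X : Chir V) (H : V → Prop) : Prop where
  r1 : ∀ v a b c, H v → v ≠ a → v ≠ b → v ≠ c → a ≠ b → b ≠ c → a ≠ c →
    ¬ (X.s a b v = X.s b c v ∧ X.s b c v = X.s c a v)
  r2 : ∀ v, ¬ H v → ∃ a b c, v ≠ a ∧ v ≠ b ∧ v ≠ c ∧ a ≠ b ∧ b ≠ c ∧ a ≠ c ∧
    X.s a b v = X.s b c v ∧ X.s b c v = X.s c a v
  hs : ∀ a b (e : Bool), a ≠ b → (∀ h, H h → h ≠ a → h ≠ b → X.s a b h = e) →
    ∀ x, x ≠ a → x ≠ b → X.s a b x = e

/-- every crossing of `X` is a crossing of `Y` -/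
def Cont {V : Type} (X Y : Chir V) : Prop :=
  ∀ a b c d : V, a ≠ b → a ≠ c → a ≠ d → b ≠ c → b ≠ d → c ≠ d →
    cont4 (X.s a b c) (X.s a b d) (X.s a c d) (X.s b c d)
      (Y.s a b c) (Y.s a b d) (Y.s a c d) (Y.s b c d) = true

namespace HullData

variable {V : Type} {X : Chir V} {H : V → Prop}

theorem mirror (hX : HullData X H) : HullData X.mirror H where
  r1 v a b c h1 h2 h3 h4 h5 h6 h7 := by
    have := hX.r1 v a b c h1 h2 h3 h4 h5 h6 h7
    simpa [Chir.mirror] using this
  r2 v h := by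
    obtain ⟨a, b, c, h1, h2, h3, h4, h5, h6, h7, h8⟩ := hX.r2 v h
    exact ⟨a, b, c, h1, h2, h3, h4, h5, h6, by simp [Chir.mirror, h7], by simp [Chir.mirror, h8]⟩
  hs a b e hab h x hxa hxb := by
    have h1 := hX.hs a b (!e) hab (fun y hy hya hyb => by
      have := h y hy hya hyb
      simp only [Chir.mirror] at this
      rw [← this, Bool.not_not]) x hxa hxb
    simp only [Chir.mirror]
    rw [h1, Bool.not_not]

/-- extreme first point -/
theorem e1 (hX : HullData X H) {a b c d : V} (ha : H a) (h1 : a ≠ b) (h2 : a ≠ c) (h3 : a ≠ d)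
    (h4 : b ≠ c) (h5 : b ≠ d) (h6 : c ≠ d) :
    in1 (X.s a b c) (X.s a b d) (X.s a c d) (X.s b c d) = false := by
  have h := hX.r1 a b c d ha h1 h2 h3 h4 h6 h5
  -- s b c a = s a b c ; s c d a = s a c d ; s d b a = s a d b = ! s a b d
  rw [X.rot a b c, X.rot a c d, X.rot a d b, X.swap' a b d h1 h5 h3] at h
  unfold in1
  revert h
  generalize X.s a b c = p, X.s a b d = q, X.s a c d = r
  revert p q r; decide

/-- extreme second point -/
theorem e2 (hX : HullData X H) {a b c d : V} (hb : H b) (h1 : a ≠ b) (h2 : a ≠ c) (h3 : a ≠ d)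
    (h4 : b ≠ c) (h5 : b ≠ d) (h6 : c ≠ d) :
    in2 (X.s a b c) (X.s a b d) (X.s a c d) (X.s b c d) = false := by
  have h := hX.r1 b a c d hb h1.symm h4 h5 h2 h6 h3
  -- s a c b = ! s a b c ; s c d b = s b c d ; s d a b = s a b d
  rw [X.swap' a b c h1 h4 h2, X.rot b c d, ← X.rot d a b] at h
  unfold in2
  revert h
  generalize X.s a b c = p, X.s a b d = q, X.s b c d = r
  revert p q r; decide

/-- extreme third point -/
theorem e3 (hX : HullData X H) {a b c d : V} (hc : H c) (h1 : a ≠ b) (h2 : a ≠ c) (h3 : a ≠ d)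
    (h4 : b ≠ c) (h5 : b ≠ d) (h6 : c ≠ d) :
    in3 (X.s a b c) (X.s a b d) (X.s a c d) (X.s b c d) = false := by
  have h := hX.r1 c a b d hc h2.symm h4.symm h6 h1 h5 h3
  -- s a b c ; s b d c = ! s b c d ; s d a c = s a c d
  rw [X.swap' b c d h4 h6 h5, ← X.rot d a c] at h
  unfold in3
  revert h
  generalize X.s a b c = p, X.s a c d = q, X.s b c d = r
  revert p q r; decide

/-- extreme fourth point -/
theorem e4 (hX : HullData X H) {a b c d : V} (hd : H d) (h1 : a ≠ b) (h2 : a ≠ c) (h3 : a ≠ d)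
    (h4 : b ≠ c) (h5 : b ≠ d) (h6 : c ≠ d) :
    in4 (X.s a b c) (X.s a b d) (X.s a c d) (X.s b c d) = false := by
  have h := hX.r1 d a b c hd h3.symm h5.symm h6.symm h1 h4 h2
  -- s a b d ; s b c d ; s c a d = ! s a c d
  rw [X.swap a c d h2 h6 h3] at h
  unfold in4
  revert h
  generalize X.s a b d = p, X.s b c d = q, X.s a c d = r
  revert p q r; decide

/-- transitivity around an extreme point -/
theorem trans (hX : HullData X H) {a x y z : V} (ha : H a) (h1 : a ≠ x) (h2 : a ≠ y)
    (h3 : a ≠ z) (h4 : x ≠ y) (h5 : x ≠ z) (h6 : y ≠ z) (h7 : X.s a x y = true)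
    (h8 : X.s a y z = true) : X.s a x z = true := by
  have h := hX.e1 ha h1 h2 h3 h4 h5 h6
  rw [h7, h8] at h
  revert h
  generalize X.s a x z = p, X.s x y z = q
  revert p q; decide

/-- a point that is not extreme has extreme points on both sides of every line through it -/
theorem hs2 (hX : HullData X H) {w a : V} (hw : ¬ H w) (haw : a ≠ w) (e : Bool) :
    ∃ h, H h ∧ h ≠ a ∧ h ≠ w ∧ X.s a w h = e := by
  by_contra hcon
  push Not at hcon
  have h1 : ∀ h, H h → h ≠ a → h ≠ w → X.s a w h = !e := by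
    intro h hh h2 h3
    exact bne1 _ _ (hcon h hh h2 h3)
  have h2 := hX.hs a w (!e) haw h1
  obtain ⟨x, y, z, n1, n2, n3, n4, n5, n6, e1, e2⟩ := hX.r2 w hw
  by_cases hax : a = x
  · subst hax
    -- s a y w = s y z w = s z a w
    have g1 := h2 y n4.symm n2.symm
    have g2 := h2 z n6.symm n3.symm
    rw [X.swap' a w y haw n2 n4] at e1
    have e3 : X.s z a w = X.s a w z := (X.rot z a w).symm
    rw [e3] at e2
    rw [g1] at e1
    rw [g2] at e2
    rw [← e1] at e2
    exact bne2 e e2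
  · by_cases hay : a = y
    · subst hay
      -- s x a w = s a z w = s z x w
      have g1 := h2 z n5.symm n3.symm
      have g2 := h2 x n4 n1.symm
      have e3 : X.s x a w = X.s a w x := (X.rot x a w).symm
      rw [X.swap' a w z haw n3 n5, e3, g1, g2] at e1
      exact bne3 e e1
    · by_cases haz : a = z
      · subst haz
        -- s x y w = s y a w = s a x w
        have g1 := h2 x n6 n1.symm
        have g2 := h2 y n5 n2.symm
        have e3 : X.s y a w = X.s a w y := (X.rot y a w).symm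
        rw [X.swap' a w x haw n1 n6.symm, e3, g1, g2] at e2
        exact bne3 e e2
      · have g1 := h2 x (Ne.symm hax) n1.symm
        have g2 := h2 y (Ne.symm hay) n2.symm
        have g3 := h2 z (Ne.symm haz) n3.symm
        have g5 := X.five a w x y z haw hax hay haz n1 n2 n3 n4 n6 n5
        have e3 : X.s x y w = X.s w x y := (X.rot w x y)
        have e4 : X.s y z w = X.s w y z := (X.rot w y z)
        have e5 : X.s z x w = !X.s w x z := by
          rw [X.rot w z x, X.swap' w x z n1 n6 n3]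
        rw [e3, e4] at e1
        rw [e4, e5] at e2
        rw [g1, g2, g3, ← e1] at g5
        rw [← e1] at e2
        exact span_contra _ _ _ _ _ _ _ g5 e2

/-- there are at least three extreme points -/
theorem third (hX : HullData X H) {a b x : V} (hab : a ≠ b) (hxa : x ≠ a) (hxb : x ≠ b) :
    ∃ c, H c ∧ c ≠ a ∧ c ≠ b := by
  by_contra hcon
  push Not at hcon
  have h1 := hX.hs a b true hab (fun h hh h1 h2 => (h2 (hcon h hh h1)).elim) x hxa hxb
  have h2 := hX.hs a b false hab (fun h hh h1 h2 => (h2 (hcon h hh h1)).elim) x hxa hxb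
  rw [h1] at h2
  cases h2

end HullData

end Pool.Agent.LibOT
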