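import Mathlib
import Pool.Agent.LibOT.Chir

namespace Pool.Agent.LibOT

open HullData

variable {V : Type} {X Y : Chir V} {H : V → Prop}

theorem bxor1 : ∀ p q : Bool, q = xor p (xor p q) := by decide
theorem bxor2 : ∀ p q p' q' : Bool, (p = p' → q = q') → (p ≠ p' → q ≠ q') →
    q = xor p (xor p' q') := by decide

/-- A1: around a pair of common extreme points the two orientations agree up to one global sign. -/
theorem a1 (hX : HullData X H) (hY : HullData Y H) (hC : Cont X Y) {a b : V} (ha : H a) (hb : H b)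
    (hab : a ≠ b) : ∃ e : Bool, ∀ x, x ≠ a → x ≠ b → Y.s a b x = xor (X.s a b x) e := by
  -- transfer of opposite sides against an extreme point
  have hopp : ∀ w e, H e → w ≠ a → w ≠ b → e ≠ a → e ≠ b → w ≠ e →
      X.s a b w ≠ X.s a b e → Y.s a b w ≠ Y.s a b e := by
    intro w e he n1 n2 n3 n4 n5 hne
    exact opp_transfer _ _ _ _ _ _ _ _
      (X.four a b w e hab n1.symm n3.symm n2.symm n4.symm n5)
      (Y.four a b w e hab n1.symm n3.symm n2.symm n4.symm n5)
      (hC a b w e hab n1.symm n3.symm n2.symm n4.symm n5)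
      (hX.e1 ha hab n1.symm n3.symm n2.symm n4.symm n5)
      (hX.e2 hb hab n1.symm n3.symm n2.symm n4.symm n5)
      (hX.e4 he hab n1.symm n3.symm n2.symm n4.symm n5) hne
  by_cases hex : ∃ c e, H c ∧ H e ∧ c ≠ a ∧ c ≠ b ∧ e ≠ a ∧ e ≠ b ∧ X.s a b c ≠ X.s a b e
  · obtain ⟨c, e, hc, he, n1, n2, n3, n4, hne⟩ := hex
    have hce : c ≠ e := fun h => hne (by rw [h])
    have hY1 := hopp c e he n1 n2 n3 n4 hce hne
    refine ⟨xor (X.s a b c) (Y.s a b c), fun x hxa hxb => ?_⟩
    by_cases hxc : x = c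
    · subst hxc; exact bxor1 _ _
    · apply bxor2
      · intro heq
        have hne2 : X.s a b x ≠ X.s a b e := fun h => hne (heq.symm.trans h)
        by_cases hxe : x = e
        · exact (hne2 (by rw [hxe])).elim
        · have h3 := hopp x e he hxa hxb n3 n4 hxe hne2
          have h4 := bne1 _ _ h3
          have h5 := bne1 _ _ hY1
          rw [h4, h5]
      · exact hopp x c hc hxa hxb n1 n2 hxc
  · push Not at hex
    by_cases hx0 : ∃ x, x ≠ a ∧ x ≠ b
    · obtain ⟨x0, hx0a, hx0b⟩ := hx0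
      obtain ⟨c0, hc0, n1, n2⟩ := hX.third hab hx0a hx0b
      have h1 : ∀ h, H h → h ≠ a → h ≠ b → X.s a b h = X.s a b c0 :=
        fun h hh m1 m2 => hex h c0 hh hc0 m1 m2 n1 n2
      have h2 := hX.hs a b _ hab h1
      have h3 : ∀ h, H h → h ≠ a → h ≠ b → Y.s a b h = Y.s a b c0 := by
        intro h hh m1 m2
        by_cases hc : h = c0
        · rw [hc]
        · exact same_transfer _ _ _ _ _ _ _ _
            (X.four a b h c0 hab m1.symm n1.symm m2.symm n2.symm hc)
            (Y.four a b h c0 hab m1.symm n1.symm m2.symm n2.symm hc)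
            (hC a b h c0 hab m1.symm n1.symm m2.symm n2.symm hc)
            (hX.e1 ha hab m1.symm n1.symm m2.symm n2.symm hc)
            (hX.e2 hb hab m1.symm n1.symm m2.symm n2.symm hc)
            (hX.e3 hh hab m1.symm n1.symm m2.symm n2.symm hc)
            (hX.e4 hc0 hab m1.symm n1.symm m2.symm n2.symm hc) (h1 h hh m1 m2)
      have h4 := hY.hs a b _ hab h3
      refine ⟨xor (X.s a b c0) (Y.s a b c0), fun x hxa hxb => ?_⟩
      rw [h2 x hxa hxb, h4 x hxa hxb]
      exact bxor1 _ _
    · push Not at hx0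
      exact ⟨false, fun x hxa hxb => (hxb (hx0 x hxa)).elim⟩

/-- after normalising one triple of extreme points the orientations agree around all pairs of
extreme points -/
theorem a1g (hX : HullData X H) (hY : HullData Y H) (hC : Cont X Y) {a0 b0 c0 : V}
    (ha0 : H a0) (hb0 : H b0) (n1 : a0 ≠ b0) (n2 : b0 ≠ c0) (n3 : a0 ≠ c0)
    (h0 : Y.s a0 b0 c0 = X.s a0 b0 c0) :
    ∀ a b, H a → H b → a ≠ b → ∀ x, x ≠ a → x ≠ b → Y.s a b x = X.s a b x := by
  have hxf : ∀ p e : Bool, p = xor p e → e = false := by decide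
  have key : ∀ a b x, H a → H b → a ≠ b → x ≠ a → x ≠ b → Y.s a b x = X.s a b x →
      ∀ y, y ≠ a → y ≠ b → Y.s a b y = X.s a b y := by
    intro a b x ha hb hab m1 m2 hx y m3 m4
    obtain ⟨e, he⟩ := a1 hX hY hC ha hb hab
    have h1 := he x m1 m2
    rw [hx] at h1
    have h2 := hxf _ _ h1
    rw [he y m3 m4, h2, Bool.xor_false]
  have s0 : ∀ y, y ≠ a0 → y ≠ b0 → Y.s a0 b0 y = X.s a0 b0 y :=
    key a0 b0 c0 ha0 hb0 n1 n3.symm n2.symm h0
  have s1 : ∀ a, H a → a ≠ a0 → ∀ y, y ≠ a0 → y ≠ a → Y.s a0 a y = X.s a0 a y := by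
    intro a ha m1
    by_cases hab : a = b0
    · subst hab; exact s0
    · refine key a0 a b0 ha0 ha m1.symm n1.symm (Ne.symm hab) ?_
      rw [Y.swap' a0 b0 a n1 (Ne.symm hab) m1.symm, X.swap' a0 b0 a n1 (Ne.symm hab) m1.symm,
        s0 a m1 hab]
  intro a b ha hb hab
  by_cases m1 : a = a0
  · subst m1; exact s1 b hb hab.symm
  · by_cases m2 : b = a0
    · subst m2
      intro x m3 m4
      have := s1 a ha m1 x m4 m3
      rw [Y.swap b a x hab.symm m3.symm m4.symm, X.swap b a x hab.symm m3.symm m4.symm, this]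
    · refine key a b a0 ha hb hab (Ne.symm m1) (Ne.symm m2) ?_
      rw [Y.rot a0 a b, X.rot a0 a b]
      exact s1 a ha m1 b m2 hab.symm

/-- A2 -/
theorem a2 (hX : HullData X H) (hY : HullData Y H) (hC : Cont X Y)
    (hE : ∀ a b, H a → H b → a ≠ b → ∀ x, x ≠ a → x ≠ b → Y.s a b x = X.s a b x) :
    ∀ a w w', H a → a ≠ w → a ≠ w' → w ≠ w' → Y.s a w w' = X.s a w w' := by
  have main : ∀ a w w', H a → ¬ H w → ¬ H w' → a ≠ w → a ≠ w' → w ≠ w' →
      X.s a w w' = true → Y.s a w w' = false → False := by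
    intro a w w' ha hw hw' n1 n2 n3 hXt hYf
    obtain ⟨b, hb, m1, m2, hb2⟩ := hX.hs2 hw n1 false
    have m3 : b ≠ w' := fun h => hw' (h ▸ hb)
    have hbw : X.s a b w = true := X.swap_true n1 m2.symm m1.symm hb2
    have hbw' : X.s a b w' = true := by
      exact hX.trans ha m1.symm n1 n2 m2 m3 n3 hbw hXt
    obtain ⟨c, hc, k1, k2, hc2⟩ := hX.hs2 hw' n2 true
    have k3 : c ≠ w := fun h => hw (h ▸ hc)
    have hwc : X.s a w c = true := hX.trans ha n1 n2 k1.symm n3 k3.symm k2.symm hXt hc2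
    have hbc : b ≠ c := by
      intro h
      rw [h] at hb2
      rw [hb2] at hwc
      cases hwc
    have hbct : X.s a b c = true := hX.trans ha m1.symm n1 k1.symm m2 hbc k3.symm hbw hwc
    -- transfer to Y
    have y1 : Y.s a b w = true := by rw [hE a b ha hb m1.symm w n1.symm m2.symm]; exact hbw
    have y2 : Y.s a b w' = true := by rw [hE a b ha hb m1.symm w' n2.symm m3.symm]; exact hbw'
    have y3 : Y.s a b c = true := by rw [hE a b ha hb m1.symm c k1 hbc.symm]; exact hbct
    have x4 : X.s a c w = false := X.swap_false n1 k3.symm k1.symm hwc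
    have x5 : X.s a c w' = false := X.swap_false n2 k2.symm k1.symm hc2
    have y4 : Y.s a c w = false := by rw [hE a c ha hc k1.symm w n1.symm k3.symm]; exact x4
    have y5 : Y.s a c w' = false := by rw [hE a c ha hc k1.symm w' n2.symm k2.symm]; exact x5
    have y6 : Y.s b c w = X.s b c w := hE b c hb hc hbc w m2.symm k3.symm
    have y7 : Y.s b c w' = X.s b c w' := hE b c hb hc hbc w' m3.symm k2.symm
    have vX := X.five a b c w w' m1.symm k1.symm n1 n2 hbc m2 m3 k3 k2 n3
    have vY := Y.five a b c w w' m1.symm k1.symm n1 n2 hbc m2 m3 k3 k2 n3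
    have c1 := hC a b w w' m1.symm n1 n2 m2 m3 n3
    have c2 := hC a c w w' k1.symm n1 n2 k3 k2 n3
    have c3 := hC b c w w' hbc m2 m3 k3 k2 n3
    rw [hbct, hbw, hbw', x4, x5, hXt] at vX
    rw [y3, y1, y2, y4, y5, hYf, y6, y7] at vY
    rw [hbw, hbw', hXt, y1, y2, hYf] at c1
    rw [x4, x5, hXt, y4, y5, hYf] at c2
    rw [y6, y7] at c3
    exact a2_core _ _ _ _ _ _ vX vY c1 c2 c3
  intro a w w' ha n1 n2 n3
  by_cases hw : H w
  · exact hE a w ha hw n1 w' n2.symm n3.symm
  · by_cases hw' : H w'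
    · have h1 := hE a w' ha hw' n2 w n1.symm n3
      rw [Y.swap' a w' w n2 n3.symm n1, X.swap' a w' w n2 n3.symm n1, h1]
    · rcases hx : X.s a w w' with _ | _ <;> rcases hy : Y.s a w w' with _ | _
      · rfl
      · exact (main a w' w ha hw' hw n2 n1 n3.symm (X.swap_true n1 n3 n2 hx)
          (Y.swap_false n1 n3 n2 hy)).elim
      · exact (main a w w' ha hw hw' n1 n2 n3 hx hy).elim
      · rfl

/-- A3: all orientations agree -/
theorem a3 (hX : HullData X H) (hY : HullData Y H) (hC : Cont X Y)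
    (hE : ∀ a b, H a → H b → a ≠ b → ∀ x, x ≠ a → x ≠ b → Y.s a b x = X.s a b x) :
    ∀ x y z, x ≠ y → y ≠ z → x ≠ z → Y.s x y z = X.s x y z := by
  have h2 := a2 hX hY hC hE
  have main : ∀ x y z, ¬ H x → ¬ H y → ¬ H z → x ≠ y → y ≠ z → x ≠ z →
      X.s x y z = true → Y.s x y z = false → False := by
    intro x y z hx hy hz n1 n2 n3 hXt hYf
    -- classification of extreme points
    have hcl : ∀ a, H a → a ≠ x ∧ a ≠ y ∧ a ≠ z ∧
        ((X.s a y z && X.s a x z && !X.s a x y) || (!X.s a y z && !X.s a x z && !X.s a x y) ||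
          (!X.s a y z && X.s a x z && X.s a x y)) = true := by
      intro a ha
      have m1 : a ≠ x := fun h => hx (h ▸ ha)
      have m2 : a ≠ y := fun h => hy (h ▸ ha)
      have m3 : a ≠ z := fun h => hz (h ▸ ha)
      refine ⟨m1, m2, m3, ?_⟩
      have vX := X.four a x y z m1 m2 m3 n1 n3 n2
      have vY := Y.four a x y z m1 m2 m3 n1 n3 n2
      have c1 := hC a x y z m1 m2 m3 n1 n3 n2
      have i1 := hX.e1 ha m1 m2 m3 n1 n3 n2
      rw [hXt] at vX c1 i1
      rw [hYf, h2 a x y ha m1 m2 n1, h2 a x z ha m1 m3 n3, h2 a y z ha m2 m3 n2] at vY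
      rw [hYf, h2 a x y ha m1 m2 n1, h2 a x z ha m1 m3 n3, h2 a y z ha m2 m3 n2] at c1
      exact a3_cone _ _ _ vX vY c1 i1
    -- existence in each cone
    have ex : ∀ p q r, p ≠ q → q ≠ r → p ≠ r → X.s p q r = true →
        ∃ a, H a ∧ a ≠ p ∧ a ≠ q ∧ X.s a p q = true := by
      intro p q r k1 k2 k3 hpqr
      by_contra hcon
      push Not at hcon
      have := hX.hs p q false k1 (fun h hh g1 g2 => by
        have h3 := hcon h hh g1 g2
        rw [X.rot h p q]
        exact bne1 _ _ h3) r k3.symm k2.symm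
      rw [hpqr] at this
      cases this
    have hyz : X.s y z x = true := by rw [X.rot x y z]; exact hXt
    have hzx : X.s z x y = true := by rw [X.rot y z x]; exact hyz
    obtain ⟨a, ha, _, _, ha1⟩ := ex y z x n2 n3.symm n1.symm hyz
    obtain ⟨b, hb, _, _, hb1⟩ := ex z x y n3.symm n1 n2.symm hzx
    obtain ⟨c, hc, _, _, hc1⟩ := ex x y z n1 n2 n3 hXt
    obtain ⟨a2', a3', a4', ka⟩ := hcl a ha
    obtain ⟨b2', b3', b4', kb⟩ := hcl b hb
    obtain ⟨c2', c3', c4', kc⟩ := hcl c hc
    have ha2 : X.s a x z = true ∧ X.s a x y = false := by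
      revert ka ha1
      generalize X.s a y z = p, X.s a x z = q, X.s a x y = r
      revert p q r; decide
    have hb1' : X.s b x z = false := by
      have := X.swap' b z x b4' n3.symm b2'
      rw [this, hb1]; rfl
    have hb2 : X.s b y z = false ∧ X.s b x y = false := by
      revert kb hb1'
      generalize X.s b y z = p, X.s b x z = q, X.s b x y = r
      revert p q r; decide
    have hc2 : X.s c y z = false ∧ X.s c x z = true := by
      revert kc hc1
      generalize X.s c y z = p, X.s c x z = q, X.s c x y = r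
      revert p q r; decide
    have hab : a ≠ b := by
      intro h; rw [h] at ha1; rw [hb2.1] at ha1; cases ha1
    have hac : a ≠ c := by
      intro h; rw [h] at ha1; rw [hc2.1] at ha1; cases ha1
    have hbc : b ≠ c := by
      intro h; rw [h] at hb1'; rw [hc2.2] at hb1'; cases hb1'
    -- canonical signs for the order x y z a b c
    have r1 : ∀ p q r : V, X.s q r p = X.s p q r := fun p q r => X.rot p q r
    have X1 : X.s x y a = false := by rw [r1 a x y]; exact ha2.2
    have X2 : X.s x z a = true := by rw [r1 a x z]; exact ha2.1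
    have X3 : X.s y z a = true := by rw [r1 a y z]; exact ha1
    have X4 : X.s x y b = false := by rw [r1 b x y]; exact hb2.2
    have X5 : X.s x z b = false := by rw [r1 b x z]; exact hb1'
    have X6 : X.s y z b = false := by rw [r1 b y z]; exact hb2.1
    have X7 : X.s x y c = true := by rw [r1 c x y]; exact hc1
    have X8 : X.s x z c = true := by rw [r1 c x z]; exact hc2.2
    have X9 : X.s y z c = false := by rw [r1 c y z]; exact hc2.1
    have xa := a2'.symm
    have ya := a3'.symm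
    have za := a4'.symm
    have xb := b2'.symm
    have yb := b3'.symm
    have zb := b4'.symm
    have xc := c2'.symm
    have yc := c3'.symm
    have zc := c4'.symm
    have v1 := X.five x y z a b n1 n3 xa xb n2 ya yb za zb hab
    have v2 := X.five x y z a c n1 n3 xa xc n2 ya yc za zc hac
    have v3 := X.five x y z b c n1 n3 xb xc n2 yb yc zb zc hbc
    have v4' := X.five x y a b c n1 xa xb xc ya yb yc hab hac hbc
    have v5' := X.five x z a b c n3 xa xb xc za zb zc hab hac hbc
    have v6' := X.five y z a b c n2 ya yb yc za zb zc hab hac hbc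
    rw [hXt, X1, X2, X3, X4, X5, X6] at v1
    rw [hXt, X1, X2, X3, X7, X8, X9] at v2
    rw [hXt, X4, X5, X6, X7, X8, X9] at v3
    rw [X1, X4, X7] at v4'
    rw [X2, X5, X8] at v5'
    rw [X3, X6, X9] at v6'
    have resX : X.s a b c = true := six1 _ _ _ v1 _ _ _ v2 _ _ _ v3 _ v4' v5' v6'
    -- mirror of Y
    have r1' : ∀ p q r : V, Y.s q r p = Y.s p q r := fun p q r => Y.rot p q r
    have hn : ∀ p q : Bool, p = q → (!p) = !q := by decide
    have Y1 : Y.mirror.s x y a = true := by
      change (!Y.s x y a) = true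
      rw [r1' a x y, h2 a x y ha a2' a3' n1, ha2.2]; rfl
    have Y2 : Y.mirror.s x z a = false := by
      change (!Y.s x z a) = false
      rw [r1' a x z, h2 a x z ha a2' a4' n3, ha2.1]; rfl
    have Y3 : Y.mirror.s y z a = false := by
      change (!Y.s y z a) = false
      rw [r1' a y z, h2 a y z ha a3' a4' n2, ha1]; rfl
    have Y4 : Y.mirror.s x y b = true := by
      change (!Y.s x y b) = true
      rw [r1' b x y, h2 b x y hb b2' b3' n1, hb2.2]; rfl
    have Y5 : Y.mirror.s x z b = true := by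
      change (!Y.s x z b) = true
      rw [r1' b x z, h2 b x z hb b2' b4' n3, hb1']; rfl
    have Y6 : Y.mirror.s y z b = true := by
      change (!Y.s y z b) = true
      rw [r1' b y z, h2 b y z hb b3' b4' n2, hb2.1]; rfl
    have Y7 : Y.mirror.s x y c = false := by
      change (!Y.s x y c) = false
      rw [r1' c x y, h2 c x y hc c2' c3' n1, hc1]; rfl
    have Y8 : Y.mirror.s x z c = false := by
      change (!Y.s x z c) = false
      rw [r1' c x z, h2 c x z hc c2' c4' n3, hc2.2]; rfl
    have Y9 : Y.mirror.s y z c = true := by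
      change (!Y.s y z c) = true
      rw [r1' c y z, h2 c y z hc c3' c4' n2, hc2.1]; rfl
    have Y0 : Y.mirror.s x y z = true := by
      change (!Y.s x y z) = true
      rw [hYf]; rfl
    have w1 := Y.mirror.five x y z a b n1 n3 xa xb n2 ya yb za zb hab
    have w2 := Y.mirror.five x y z a c n1 n3 xa xc n2 ya yc za zc hac
    have w3 := Y.mirror.five x y z b c n1 n3 xb xc n2 yb yc zb zc hbc
    have w4 := Y.mirror.five x y a b c n1 xa xb xc ya yb yc hab hac hbc
    have w5 := Y.mirror.five x z a b c n3 xa xb xc za zb zc hab hac hbc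
    have w6 := Y.mirror.five y z a b c n2 ya yb yc za zb zc hab hac hbc
    rw [Y0, Y1, Y2, Y3, Y4, Y5, Y6] at w1
    rw [Y0, Y1, Y2, Y3, Y7, Y8, Y9] at w2
    rw [Y0, Y4, Y5, Y6, Y7, Y8, Y9] at w3
    rw [Y1, Y4, Y7] at w4
    rw [Y2, Y5, Y8] at w5
    rw [Y3, Y6, Y9] at w6
    have resY : Y.mirror.s a b c = true := six2 _ _ _ w1 _ _ _ w2 _ _ _ w3 _ w4 w5 w6
    have resY' : (!Y.s a b c) = true := resY
    rw [hE a b ha hb hab c hac.symm hbc.symm, resX] at resY'
    cases resY'
  intro x y z n1 n2 n3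
  by_cases hx : H x
  · exact h2 x y z hx n1 n3 n2
  · by_cases hy : H y
    · rw [← Y.rot x y z, ← X.rot x y z]
      exact h2 y z x hy n2 n1.symm n3.symm
    · by_cases hz : H z
      · rw [Y.rot z x y, X.rot z x y]
        exact h2 z x y hz n3.symm n2.symm n1
      · rcases hx' : X.s x y z with _ | _ <;> rcases hy' : Y.s x y z with _ | _
        · rfl
        · exact (main x z y hx hz hy n3 n2.symm n1 (X.swap_true n1 n2 n3 hx')
            (Y.swap_false n1 n2 n3 hy')).elim
        · exact (main x y z hx hy hz n1 n2 n3 hx' hy').elim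
        · rfl

/-- Case A: common extreme points -/
theorem caseA (hX : HullData X H) (hY : HullData Y H) (hC : Cont X Y) {a0 b0 c0 : V}
    (ha0 : H a0) (hb0 : H b0) (n1 : a0 ≠ b0) (n2 : b0 ≠ c0) (n3 : a0 ≠ c0) :
    ∀ a b c d, a ≠ b → a ≠ c → a ≠ d → b ≠ c → b ≠ d → c ≠ d → Y.cr a b c d → X.cr a b c d := by
  by_cases h0 : Y.s a0 b0 c0 = X.s a0 b0 c0
  · have hall := a3 hX hY hC (a1g hX hY hC ha0 hb0 n1 n2 n3 h0)
    intro a b c d m1 m2 m3 m4 m5 m6 hcr
    unfold Chir.cr at hcr ⊢
    rw [← hall a b c m1 m4 m2, ← hall a b d m1 m5 m3, ← hall c d a m6 m3.symm m2.symm,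
      ← hall c d b m6 m5.symm m4.symm]
    exact hcr
  · have hY' := hY.mirror
    have hC' : Cont X Y.mirror := by
      intro a b c d m1 m2 m3 m4 m5 m6
      change cont4 _ _ _ _ (!_) (!_) (!_) (!_) = true
      rw [cont4_not]
      exact hC a b c d m1 m2 m3 m4 m5 m6
    have h0' : Y.mirror.s a0 b0 c0 = X.s a0 b0 c0 := by
      change (!Y.s a0 b0 c0) = _
      have := bne1 _ _ h0
      rw [this, Bool.not_not]
    have hall := a3 hX hY' hC' (a1g hX hY' hC' ha0 hb0 n1 n2 n3 h0')
    intro a b c d m1 m2 m3 m4 m5 m6 hcr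
    rw [← Y.cr_mirror] at hcr
    unfold Chir.cr at hcr ⊢
    rw [← hall a b c m1 m4 m2, ← hall a b d m1 m5 m3, ← hall c d a m6 m3.symm m2.symm,
      ← hall c d b m6 m5.symm m4.symm]
    exact hcr

end Pool.Agent.LibOT
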