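import Mathlib
import Pool.Agent.LibOT.Chir

namespace Pool.Agent.LibOT

open HullData

/-- `w` beyond the hull edge: order `(u, v, k, w)`, `u v k` extreme, `k, w` on the same side of
`uv` in the first, on different sides in the second configuration. -/
theorem beyond_core : ∀ p p134 p234 q123 q134 q234 : Bool,
    v4 p p p134 p234 = true → v4 q123 (!q123) q134 q234 = true →
    cont4 p p p134 p234 q123 (!q123) q134 q234 = true →
    in1 p p p134 p234 = false → in2 p p p134 p234 = false → in3 p p p134 p234 = false →
    p134 = !p := by decide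

theorem bne4 : ∀ e : Bool, true = !e → (!true) = !e → False := by decide

theorem span5 : ∀ e x134 x135 x145 x345 x235 : Bool,
    v5 e e e x134 x135 x145 true x235 true x345 = true → x235 = true := by decide

/-- order `(u, v, t, x, z)`: transitivity inside a half plane -/
theorem half_trans : ∀ x135 x234 x235 x245 x345 : Bool,
    v5 true true true true x135 true x234 x235 x245 x345 = true → x135 = true := by decide

theorem half_trans' : ∀ x134 x234 x235 x245 x345 : Bool,
    v5 true true true x134 true false x234 x235 x245 x345 = true → x134 = true := by decide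

theorem final_core : ∀ p123 p234 q234 : Bool,
    v4 p123 false true p234 = true → v4 true false true q234 = true →
    cont4 p123 false true p234 true false true q234 = true →
    in1 p123 false true p234 = false → in4 p123 false true p234 = false → False := by decide

variable {V : Type} {X Y : Chir V} {H H' : V → Prop}

/-- existence of the counterclockwise neighbour of an extreme point -/
theorem exists_succ [Fintype V] (hX : HullData X H) {u : V} (hu : H u) (hne : ∃ w, w ≠ u) :
    ∃ v, v ≠ u ∧ H v ∧ ∀ w, w ≠ u → w ≠ v → X.s u v w = true := by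
  classical
  obtain ⟨w0, hw0⟩ := hne
  obtain ⟨v, hv, hmax⟩ := Finset.exists_max_image (Finset.univ.filter (fun v : V => v ≠ u))
    (fun v => (Finset.univ.filter (fun w : V => w ≠ u ∧ w ≠ v ∧ X.s u v w = true)).card)
    ⟨w0, by simp [hw0]⟩
  have hvu : v ≠ u := by simpa using hv
  have hall : ∀ w, w ≠ u → w ≠ v → X.s u v w = true := by
    intro w h1 h2
    by_contra hcon
    have h3 : X.s u v w = false := by simpa using hcon
    have h4 : X.s u w v = true := X.swap_true hvu.symm h2.symm h1.symm h3
    have h5 := hmax w (by simp [h1])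
    have h6 : (Finset.univ.filter (fun z : V => z ≠ u ∧ z ≠ v ∧ X.s u v z = true)) ⊂
        (Finset.univ.filter (fun z : V => z ≠ u ∧ z ≠ w ∧ X.s u w z = true)) := by
      rw [Finset.ssubset_iff_of_subset]
      · exact ⟨v, by simp [hvu, h2.symm, h4], by simp⟩
      · intro z hz
        simp only [Finset.mem_filter, Finset.mem_univ, true_and] at hz ⊢
        obtain ⟨z1, z2, z3⟩ := hz
        have z4 : z ≠ w := by
          intro h; rw [h, h3] at z3; cases z3
        exact ⟨z1, z4, hX.trans hu h1.symm hvu.symm z1.symm h2 z4.symm z2.symm h4 z3⟩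
    have h7 := Finset.card_lt_card h6
    omega
  refine ⟨v, hvu, ?_, hall⟩
  by_contra hv'
  obtain ⟨h, _, h1, h2, h3⟩ := hX.hs2 hv' hvu.symm false
  rw [hall h h1 h2] at h3
  cases h3

/-- If `u v` is a hull edge of `X` (all of `X` on its left) and `k` a further extreme point, and
in `Y` the point `w` is separated by `uv` from `k`, then in `X` the point `w` is on the
`v`-side of `uk`. -/
theorem beyond (hX : HullData X H) (hC : Cont X Y) {u v k w : V} {e : Bool}
    (hu : H u) (hv : H v) (hk : H k) (huv : u ≠ v) (huk : u ≠ k) (hvk : v ≠ k)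
    (huw : u ≠ w) (hvw : v ≠ w) (hkw : k ≠ w) (h1 : X.s u v k = e) (h2 : X.s u v w = e)
    (h3 : Y.s u v w ≠ Y.s u v k) : X.s u k w = !e := by
  have a1 := X.four u v k w huv huk huw hvk hvw hkw
  have a2 := Y.four u v k w huv huk huw hvk hvw hkw
  have a3 := hC u v k w huv huk huw hvk hvw hkw
  have a4 := hX.e1 hu huv huk huw hvk hvw hkw
  have a5 := hX.e2 hv huv huk huw hvk hvw hkw
  have a6 := hX.e3 hk huv huk huw hvk hvw hkw
  have a7 := bne1 _ _ h3
  rw [h1, h2] at a1 a4 a5 a6 a3
  rw [a7] at a2 a3
  exact beyond_core _ _ _ _ _ _ a1 a2 a3 a4 a5 a6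

/-- around a point `u` inside the (positively oriented) triangle `x y z` every direction has a
vertex on each side -/
theorem span_side (hd : ∀ a b c : V, Y.s b c a = Y.s a b c) {u x y z t : V} (e : Bool)
    (n1 : u ≠ x) (n2 : u ≠ y) (n3 : u ≠ z) (n4 : x ≠ y) (n5 : y ≠ z) (n6 : x ≠ z) (n7 : u ≠ t)
    (h1 : Y.s u x y = true) (h2 : Y.s u y z = true) (h3 : Y.s u z x = true) :
    ∃ w, (w = x ∨ w = y ∨ w = z) ∧ w ≠ t ∧ Y.s u t w = e := by
  by_contra hcon
  push Not at hcon
  have g1 := hcon x (Or.inl rfl)
  have g2 := hcon y (Or.inr (Or.inl rfl))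
  have g3 := hcon z (Or.inr (Or.inr rfl))
  by_cases c1 : x = t
  · subst c1
    have g2' := bne1 _ _ (g2 n4.symm)
    have g3' := bne1 _ _ (g3 n6.symm)
    rw [h1] at g2'
    rw [Y.swap' u z x n3 n6.symm n1, h3] at g3'
    exact bne4 e g2' g3'
  · by_cases c2 : y = t
    · subst c2
      have g1' := bne1 _ _ (g1 n4)
      have g3' := bne1 _ _ (g3 n5.symm)
      rw [h2] at g3'
      rw [Y.swap' u x y n1 n4 n2, h1] at g1'
      exact bne4 e g3' g1'
    · by_cases c3 : z = t
      · subst c3
        have g1' := bne1 _ _ (g1 n6)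
        have g2' := bne1 _ _ (g2 n5)
        rw [h3] at g1'
        rw [Y.swap' u y z n2 n5 n3, h2] at g2'
        exact bne4 e g1' g2'
      · have g1' := bne1 _ _ (g1 c1)
        have g2' := bne1 _ _ (g2 c2)
        have g3' := bne1 _ _ (g3 c3)
        have g5 := Y.five t u x y z n7.symm (Ne.symm c1) (Ne.symm c2) (Ne.symm c3) n1 n2 n3 n4 n6 n5
        have k1 : Y.s t u x = !Y.s u t x := by rw [Y.swap u t x n7 (Ne.symm c1) n1]
        have k2 : Y.s t u y = !Y.s u t y := by rw [Y.swap u t y n7 (Ne.symm c2) n2]
        have k3 : Y.s t u z = !Y.s u t z := by rw [Y.swap u t z n7 (Ne.symm c3) n3]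
        rw [k1, k2, k3, g1', g2', g3', h1, h2] at g5
        have g6 := span5 _ _ _ _ _ _ g5
        rw [Y.swap' u z x n3 n6.symm n1, h3] at g6
        cases g6

theorem hull_sub [Fintype V] (hX : HullData X H) (hY : HullData Y H') (hC : Cont X Y)
    {u : V} (hu : H u)
    (h4 : ∀ a b c : V, ∃ k, H k ∧ k ≠ a ∧ k ≠ b ∧ k ≠ c) : H' u := by
  classical
  by_contra hu'
  -- neighbours of u on the hull of X
  obtain ⟨k0, hk0, hk0u, _, _⟩ := h4 u u u
  obtain ⟨v, hvu, hv, hvall⟩ := exists_succ hX hu ⟨k0, hk0u⟩
  obtain ⟨t, htu, ht, htall'⟩ := exists_succ hX.mirror hu ⟨k0, hk0u⟩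
  have htall : ∀ w, w ≠ u → w ≠ t → X.s u t w = false := by
    intro w h1 h2
    have := htall' w h1 h2
    change (!X.s u t w) = true at this
    simpa using this
  have htv : t ≠ v := by
    intro h
    subst h
    obtain ⟨w, _, w1, w2, _⟩ := h4 u t t
    have h1 := hvall w w1 w2
    rw [htall w w1 w2] at h1
    cases h1
  obtain ⟨k, hk, hku, hkt, hkv⟩ := h4 u t v
  -- reduce to the orientation Y.s u v k = true
  have main : ∀ Y : Chir V, HullData Y H' → Cont X Y → Y.s u v k = true → False := by
    clear hY hC
    intro Y hY hC hYk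
    have huv := hvu.symm
    have hut := htu.symm
    have huk := hku.symm
    have hvk := hkv.symm
    have htk := hkt.symm
    have Xvt : X.s u v t = true := hvall t htu htv
    have Xvk : X.s u v k = true := hvall k hku hkv
    have Xtk : X.s u t k = false := htall k hku hkt
    have Xtv : X.s u t v = false := htall v hvu htv.symm
    -- t and k on the same side of uv in Y
    have Yvt : Y.s u v t = true := by
      rw [← hYk]
      refine same_transfer _ _ _ _ _ _ _ _
        (X.four u v t k huv hut huk htv.symm hvk htk)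
        (Y.four u v t k huv hut huk htv.symm hvk htk)
        (hC u v t k huv hut huk htv.symm hvk htk)
        (hX.e1 hu huv hut huk htv.symm hvk htk)
        (hX.e2 hv huv hut huk htv.symm hvk htk)
        (hX.e3 ht huv hut huk htv.symm hvk htk)
        (hX.e4 hk huv hut huk htv.symm hvk htk) ?_
      rw [Xvt, Xvk]
    have Ytv : Y.s u t v = false := Y.swap_false huv htv.symm hut Yvt
    have Ytk : Y.s u t k = false := by
      rw [← Ytv]
      refine same_transfer _ _ _ _ _ _ _ _
        (X.four u t k v hut huk huv htk htv hkv)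
        (Y.four u t k v hut huk huv htk htv hkv)
        (hC u t k v hut huk huv htk htv hkv)
        (hX.e1 hu hut huk huv htk htv hkv)
        (hX.e2 ht hut huk huv htk htv hkv)
        (hX.e3 hk hut huk huv htk htv hkv)
        (hX.e4 hv hut huk huv htk htv hkv) ?_
      rw [Xtk, Xtv]
    have Ykt : Y.s u k t = true := Y.swap_true hut htk huk Ytk
    -- points beyond the two hull edges
    have bv : ∀ w, w ≠ u → w ≠ v → Y.s u v w = false → w ≠ k ∧ w ≠ t ∧ X.s u k w = false := by
      intro w m1 m2 m3
      have m4 : w ≠ k := by intro h; rw [h, hYk] at m3; cases m3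
      have m5 : w ≠ t := by intro h; rw [h, Yvt] at m3; cases m3
      refine ⟨m4, m5, ?_⟩
      exact beyond hX hC hu hv hk huv huk hvk m1.symm m2.symm m4.symm Xvk (hvall w m1 m2)
        (by rw [m3, hYk]; decide)
    have bt : ∀ w, w ≠ u → w ≠ t → Y.s u t w = true → w ≠ k ∧ w ≠ v ∧ X.s u k w = true := by
      intro w m1 m2 m3
      have m4 : w ≠ k := by intro h; rw [h, Ytk] at m3; cases m3
      have m5 : w ≠ v := by intro h; rw [h, Ytv] at m3; cases m3
      refine ⟨m4, m5, ?_⟩
      exact beyond hX hC hu ht hk hut huk htk m1.symm m2.symm m4.symm Xtk (htall w m1 m2)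
        (by rw [m3, Ytk]; decide)
    -- the triangle around u in Y
    obtain ⟨x, y, z, n1, n2, n3, n4, n5, n6, e1, e2⟩ := hY.r2 u hu'
    -- final contradiction from a good pair
    have fin : ∀ x1 y1, x1 ≠ u → y1 ≠ u → x1 ≠ t → y1 ≠ v → x1 ≠ y1 → Y.s u t x1 = true →
        Y.s u v y1 = false → Y.s u x1 y1 = true → False := by
      intro x1 y1 m1 m2 m3 m4 m5 k1 k2 k3
      obtain ⟨a1, a2, a3⟩ := bt x1 m1 m3 k1
      obtain ⟨b1, b2, b3⟩ := bv y1 m2 m4 k2
      -- Y.s u v x1 = true
      have c1 : Y.s u v x1 = true := by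
        by_contra hcon
        have hcon' : Y.s u v x1 = false := by simpa using hcon
        have := (bv x1 m1 a2 hcon').2.2
        rw [a3] at this; cases this
      have c2 : Y.s u t y1 = false := by
        by_contra hcon
        have hcon' : Y.s u t y1 = true := by simpa using hcon
        have := (bt y1 m2 b2 hcon').2.2
        rw [b3] at this; cases this
      -- Y.s u k x1 = true
      have c3 : Y.s u k x1 = true := by
        have vv := Y.five u v k t x1 huv huk hut m1.symm hvk htv.symm a2.symm hkt a1.symm m3.symm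
        rw [hYk, Yvt, c1, Ykt, k1] at vv
        exact half_trans _ _ _ _ _ vv
      have c4 : Y.s u k y1 = false := by
        have vv := Y.mirror.five u t k v y1 hut huk huv m2.symm htk htv b2.symm hkv b1.symm m4.symm
        have f1 : Y.mirror.s u t k = true := by change (!Y.s u t k) = true; rw [Ytk]; rfl
        have f2 : Y.mirror.s u t v = true := by change (!Y.s u t v) = true; rw [Ytv]; rfl
        have f3 : Y.mirror.s u t y1 = true := by change (!Y.s u t y1) = true; rw [c2]; rfl
        have f4 : Y.mirror.s u k v = true := by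
          change (!Y.s u k v) = true
          rw [Y.swap' u v k huv hvk huk, hYk]; rfl
        have f5 : Y.mirror.s u v y1 = true := by change (!Y.s u v y1) = true; rw [k2]; rfl
        rw [f1, f2, f3, f4, f5] at vv
        have := half_trans _ _ _ _ _ vv
        change (!Y.s u k y1) = true at this
        simpa using this
      -- final 4-point contradiction on (u, x1, y1, k)
      have q1 := X.four u x1 y1 k m1.symm m2.symm huk m5 a1 b1
      have q2 := Y.four u x1 y1 k m1.symm m2.symm huk m5 a1 b1
      have q3 := hC u x1 y1 k m1.symm m2.symm huk m5 a1 b1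
      have q4 := hX.e1 hu m1.symm m2.symm huk m5 a1 b1
      have q5 := hX.e4 hk m1.symm m2.symm huk m5 a1 b1
      have g1 : X.s u x1 k = false := X.swap_false huk a1.symm m1.symm a3
      have g2 : X.s u y1 k = true := X.swap_true huk b1.symm m2.symm b3
      have g3 : Y.s u x1 k = false := Y.swap_false huk a1.symm m1.symm c3
      have g4 : Y.s u y1 k = true := Y.swap_true huk b1.symm m2.symm c4
      rw [g1, g2] at q1 q4 q5
      rw [k3, g3, g4] at q2
      rw [g1, g2, k3, g3, g4] at q3
      exact final_core _ _ _ q1 q2 q3 q4 q5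
    -- orient the triangle positively
    have tri : ∀ x y z, u ≠ x → u ≠ y → u ≠ z → x ≠ y → y ≠ z → x ≠ z →
        Y.s u x y = true → Y.s u y z = true → Y.s u z x = true → False := by
      intro x y z n1 n2 n3 n4 n5 n6 h1 h2 h3
      obtain ⟨x1, hx1, m1, m2⟩ := span_side Y.rot (t := t) true n1 n2 n3 n4 n5 n6 hut h1 h2 h3
      obtain ⟨y1, hy1, m3, m4⟩ := span_side Y.rot (t := v) false n1 n2 n3 n4 n5 n6 huv h1 h2 h3
      have x1u : x1 ≠ u := by rcases hx1 with h | h | h <;> rw [h] <;> exact Ne.symm ‹_›
      have y1u : y1 ≠ u := by rcases hy1 with h | h | h <;> rw [h] <;> exact Ne.symm ‹_›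
      obtain ⟨a1, a2, a3⟩ := bt x1 x1u m1 m2
      obtain ⟨b1, b2, b3⟩ := bv y1 y1u m3 m4
      have hxy : x1 ≠ y1 := by intro h; rw [h, b3] at a3; cases a3
      -- the third vertex
      have third : Y.s u x1 y1 = true ∨ ∃ w, w ≠ u ∧ w ≠ x1 ∧ w ≠ y1 ∧ Y.s u x1 w = true ∧
          Y.s u w y1 = true := by
        rcases hx1 with h | h | h <;> rcases hy1 with h' | h' | h' <;> rw [h, h']
        · exact (hxy (h.trans h'.symm)).elim
        · exact Or.inl h1
        · exact Or.inr ⟨y, n2.symm, n4.symm, n5, h1, h2⟩
        · exact Or.inr ⟨z, n3.symm, n5.symm, n6.symm, h2, h3⟩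
        · exact (hxy (h.trans h'.symm)).elim
        · exact Or.inl h2
        · exact Or.inl h3
        · exact Or.inr ⟨x, n1.symm, n6, n4, h3, h1⟩
        · exact (hxy (h.trans h'.symm)).elim
      rcases third with h | ⟨w, w1, w2, w3, w4, w5⟩
      · exact fin x1 y1 x1u y1u m1 m3 hxy m2 m4 h
      · by_cases hwt : w = t
        · subst hwt
          rw [Y.swap_false hut (Ne.symm m1) x1u.symm m2] at w4
          cases w4
        · by_cases hwt' : Y.s u t w = true
          · exact fin w y1 w1 y1u hwt m3 w3 hwt' m4 w5
          · have hwt2 : Y.s u t w = false := by simpa using hwt'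
            have c1 : Y.s u v x1 = true := by
              by_contra hcon
              have hcon' : Y.s u v x1 = false := by simpa using hcon
              have := (bv x1 x1u a2 hcon').2.2
              rw [a3] at this; cases this
            by_cases hwv : w = v
            · subst hwv
              rw [Y.swap_false huv a2.symm x1u.symm c1] at w4
              cases w4
            · by_cases hwv' : Y.s u v w = true
              · have vv := Y.five u v t x1 w huv hut x1u.symm w1.symm htv.symm a2.symm
                  (Ne.symm hwv) (Ne.symm m1) (Ne.symm hwt) w2.symm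
                rw [Yvt, c1, hwv', m2, w4] at vv
                have := half_trans _ _ _ _ _ vv
                rw [hwt2] at this
                cases this
              · have hwv2 : Y.s u v w = false := by simpa using hwv'
                exact fin x1 w x1u w1 m1 hwv w2.symm m2 hwv2 w4
    have r1 : Y.s x y u = Y.s u x y := Y.rot u x y
    have r2 : Y.s y z u = Y.s u y z := Y.rot u y z
    have r3 : Y.s z x u = Y.s u z x := Y.rot u z x
    rw [r1, r2] at e1
    rw [r2, r3] at e2
    rcases hsg : Y.s u x y with _ | _
    · rw [hsg] at e1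
      rw [← e1] at e2
      exact tri y x z n2 n1 n3 n4.symm n6 n5 (Y.swap_true n1 n4 n2 hsg)
        (Y.swap_true n3 n6.symm n1 e2.symm) (Y.swap_true n2 n5 n3 e1.symm)
    · rw [hsg] at e1
      rw [← e1] at e2
      exact tri x y z n1 n2 n3 n4 n5 n6 hsg e1.symm e2.symm
  by_cases hsg : Y.s u v k = true
  · exact main Y hY hC hsg
  · refine main Y.mirror hY.mirror ?_ ?_
    · intro a b c d m1 m2 m3 m4 m5 m6
      change cont4 _ _ _ _ (!_) (!_) (!_) (!_) = true
      rw [cont4_not]
      exact hC a b c d m1 m2 m3 m4 m5 m6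
    · change (!Y.s u v k) = true
      simpa using hsg

end Pool.Agent.LibOT
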