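import Mathlib
import Pool.Agent.LibOT.Chir

namespace Pool.Agent.LibOT

/-- three pairwise different classes -/
def kd (i j k : Fin 3) : Bool := (i != j) && (j != k) && (i != k)
/-- the classes are `0,1,2` in cyclic order -/
def cy (i j k : Fin 3) : Bool :=
  (i == 0 && j == 1 && k == 2) || (i == 1 && j == 2 && k == 0) || (i == 2 && j == 0 && k == 1)
/-- the sign in the second configuration -/
def rq (i j k : Fin 3) (p : Bool) : Bool := if kd i j k then p else !p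
/-- orientation constraint in the first configuration -/
def cc (i j k : Fin 3) (p : Bool) : Bool := !kd i j k || p == cy i j k
/-- the full rule -/
def rl (i j k : Fin 3) (p q : Bool) : Bool := (q == rq i j k p) && cc i j k p

theorem rl_rot : ∀ i j k p q, rl j k i p q = rl i j k p q := by decide
theorem rl_swap : ∀ i j k p q, rl j i k (!p) (!q) = rl i j k p q := by decide
theorem rl_iff : ∀ i j k p q, rl i j k p q = true → q = rq i j k p ∧ cc i j k p = true := by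
  decide

def e0 (k : Fin 3) : Bool := k == 0
def e1' (k : Fin 3) : Bool := k == 1
def e2' (k : Fin 3) : Bool := k == 2

theorem cone_level2 : ∀ kw ku : Fin 3, ∀ pa pb pc : Bool,
    v5 true (e2' kw) (e2' ku) (!e1' kw) (!e1' ku) pa (e0 kw) (e0 ku) pb pc = true →
    ∀ qa qb qc : Bool, v5 true true true false false qa true true qb qc = true →
    cont4 (e2' kw) (e2' ku) pa pb true true qa qb = true →
    cont4 (!e1' kw) (!e1' ku) pa pc false false qa qc = true →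
    cont4 (e0 kw) (e0 ku) pb pc true true qb qc = true →
    (rl 0 kw ku pa qa && rl 1 kw ku pb qb && rl 2 kw ku pc qc) = true := by decide

/-- all constraints on the five points `a, b, c, w, u` -/
def pairOK (kw ku : Fin 3) (a b c : Bool) : Bool :=
  v5 true (e2' kw) (e2' ku) (!e1' kw) (!e1' ku) a (e0 kw) (e0 ku) b c &&
  v5 true true true false false (rq 0 kw ku a) true true (rq 1 kw ku b) (rq 2 kw ku c) &&
  cc 0 kw ku a && cc 1 kw ku b && cc 2 kw ku c &&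
  cont4 (e2' kw) (e2' ku) a b true true (rq 0 kw ku a) (rq 1 kw ku b) &&
  cont4 (!e1' kw) (!e1' ku) a c false false (rq 0 kw ku a) (rq 2 kw ku c) &&
  cont4 (e0 kw) (e0 ku) b c true true (rq 1 kw ku b) (rq 2 kw ku c)

theorem cone_level3 : ∀ kw ku : Fin 3, ∀ a1 b1 c1 : Bool, pairOK kw ku a1 b1 c1 = true →
    ∀ kv : Fin 3, ∀ a2 b2 c2 : Bool, pairOK kw kv a2 b2 c2 = true →
    ∀ a3 b3 c3 : Bool, pairOK ku kv a3 b3 c3 = true →
    ∀ p : Bool,
    (v5 (e2' kw) (e2' ku) (e2' kv) a1 a2 a3 b1 b2 b3 p &&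
      v5 (!e1' kw) (!e1' ku) (!e1' kv) a1 a2 a3 c1 c2 c3 p &&
      v5 (e0 kw) (e0 ku) (e0 kv) b1 b2 b3 c1 c2 c3 p) = true →
    ∀ q : Bool,
    (v5 true true true (rq 0 kw ku a1) (rq 0 kw kv a2) (rq 0 ku kv a3)
      (rq 1 kw ku b1) (rq 1 kw kv b2) (rq 1 ku kv b3) q &&
    v5 false false false (rq 0 kw ku a1) (rq 0 kw kv a2) (rq 0 ku kv a3)
      (rq 2 kw ku c1) (rq 2 kw kv c2) (rq 2 ku kv c3) q &&
    v5 true true true (rq 1 kw ku b1) (rq 1 kw kv b2) (rq 1 ku kv b3)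
      (rq 2 kw ku c1) (rq 2 kw kv c2) (rq 2 ku kv c3) q &&
    cont4 a1 a2 a3 p (rq 0 kw ku a1) (rq 0 kw kv a2) (rq 0 ku kv a3) q &&
    cont4 b1 b2 b3 p (rq 1 kw ku b1) (rq 1 kw kv b2) (rq 1 ku kv b3) q &&
    cont4 c1 c2 c3 p (rq 2 kw ku c1) (rq 2 kw kv c2) (rq 2 ku kv c3) q) = true →
    rl kw ku kv p q = true := by decide

theorem cone_level4 : ∀ k1 k2 k3 k4 : Fin 3, ∀ p123 p124 p134 p234 : Bool,
    cc k1 k2 k3 p123 = true → cc k1 k2 k4 p124 = true → cc k1 k3 k4 p134 = true →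
    cc k2 k3 k4 p234 = true → v4 p123 p124 p134 p234 = true →
    v4 (rq k1 k2 k3 p123) (rq k1 k2 k4 p124) (rq k1 k3 k4 p134) (rq k2 k3 k4 p234) = true →
    cont4 p123 p124 p134 p234
      (rq k1 k2 k3 p123) (rq k1 k2 k4 p124) (rq k1 k3 k4 p134) (rq k2 k3 k4 p234) = true →
    cont4 (rq k1 k2 k3 p123) (rq k1 k2 k4 p124) (rq k1 k3 k4 p134) (rq k2 k3 k4 p234)
      p123 p124 p134 p234 = true := by decide

/-- classification of one further point -/
theorem cone_class : ∀ p124 p134 p234 : Bool, v4 true p124 p134 p234 = true →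
    cont4 true p124 p134 p234 true true false true = true →
    (p124 = true ∧ p134 = false ∧ p234 = true) ∨
    (∃ k : Fin 3, p124 = e2' k ∧ p134 = !e1' k ∧ p234 = e0 k) := by decide

/-- an inner point and a cone point cannot coexist -/
theorem cone_inner : ∀ kw : Fin 3, ∀ pa pb pc : Bool,
    v5 true (e2' kw) true (!e1' kw) false pa (e0 kw) true pb pc = true →
    ∀ qa qb qc : Bool, v5 true true true false false qa true true qb qc = true →
    cont4 (e2' kw) true pa pb true true qa qb = true →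
    cont4 (!e1' kw) false pa pc false false qa qc = true →
    cont4 (e0 kw) true pb pc true true qb qc = true → False := by decide

open HullData

theorem caseC {V : Type} {X Y : Chir V} {H H' : V → Prop} (hX : HullData X H)
    (hY : HullData Y H') (hC : Cont X Y) {a b c w0 : V} (hab : a ≠ b) (hbc : b ≠ c)
    (hac : a ≠ c) (hH' : ∀ x, H' x → x = a ∨ x = b ∨ x = c)
    (hXabc : X.s a b c = true) (hYabc : Y.s a b c = true)
    (hw0 : H w0) (w0a : w0 ≠ a) (w0b : w0 ≠ b) (w0c : w0 ≠ c) :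
    ∀ x y z t, x ≠ y → x ≠ z → x ≠ t → y ≠ z → y ≠ t → z ≠ t →
      cont4 (Y.s x y z) (Y.s x y t) (Y.s x z t) (Y.s y z t)
        (X.s x y z) (X.s x y t) (X.s x z t) (X.s y z t) = true := by
  classical
  -- all other points are inside the triangle in Y
  have Y1 : ∀ x, x ≠ a → x ≠ b → x ≠ c → Y.s a b x = true := fun x h1 h2 _ =>
    hY.hs a b true hab (fun h hh g1 g2 => by
      rcases hH' h hh with g | g | g
      · exact (g1 g).elim
      · exact (g2 g).elim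
      · rw [g]; exact hYabc) x h1 h2
  have Ybca : Y.s b c a = true := by rw [Y.rot a b c]; exact hYabc
  have Ycab : Y.s c a b = true := by rw [Y.rot b c a]; exact Ybca
  have Y2 : ∀ x, x ≠ a → x ≠ b → x ≠ c → Y.s b c x = true := fun x _ h2 h3 =>
    hY.hs b c true hbc (fun h hh g1 g2 => by
      rcases hH' h hh with g | g | g
      · rw [g]; exact Ybca
      · exact (g1 g).elim
      · exact (g2 g).elim) x h2 h3
  have Y3 : ∀ x, x ≠ a → x ≠ b → x ≠ c → Y.s a c x = false := fun x h1 _ h3 =>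
    hY.hs a c false hac (fun h hh g1 g2 => by
      rcases hH' h hh with g | g | g
      · exact (g1 g).elim
      · rw [g, Y.swap' a b c hab hbc hac, hYabc]; rfl
      · exact (g2 g).elim) x h1 h3
  -- classification in X
  have cls : ∀ x, x ≠ a → x ≠ b → x ≠ c →
      (X.s a b x = true ∧ X.s a c x = false ∧ X.s b c x = true) ∨
      (∃ k : Fin 3, X.s a b x = e2' k ∧ X.s a c x = !e1' k ∧ X.s b c x = e0 k) := by
    intro x h1 h2 h3
    have v := X.four a b c x hab hac h1.symm hbc h2.symm h3.symm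
    have q := hC a b c x hab hac h1.symm hbc h2.symm h3.symm
    rw [hXabc] at v
    rw [hXabc, hYabc, Y1 x h1 h2 h3, Y2 x h1 h2 h3, Y3 x h1 h2 h3] at q
    exact cone_class _ _ _ v q
  -- facts about pairs
  have pairQ : ∀ w u, w ≠ a → w ≠ b → w ≠ c → u ≠ a → u ≠ b → u ≠ c → w ≠ u →
      v5 true true true false false (Y.s a w u) true true (Y.s b w u) (Y.s c w u) = true := by
    intro w u h1 h2 h3 h4 h5 h6 h7
    have v := Y.five a b c w u hab hac h1.symm h4.symm hbc h2.symm h5.symm h3.symm h6.symm h7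
    rwa [hYabc, Y1 w h1 h2 h3, Y1 u h4 h5 h6, Y3 w h1 h2 h3, Y3 u h4 h5 h6, Y2 w h1 h2 h3,
      Y2 u h4 h5 h6] at v
  have pairC1 : ∀ w u, w ≠ a → w ≠ b → w ≠ c → u ≠ a → u ≠ b → u ≠ c → w ≠ u →
      cont4 (X.s a b w) (X.s a b u) (X.s a w u) (X.s b w u) true true (Y.s a w u) (Y.s b w u)
        = true := by
    intro w u h1 h2 h3 h4 h5 h6 h7
    have v := hC a b w u hab h1.symm h4.symm h2.symm h5.symm h7
    rwa [Y1 w h1 h2 h3, Y1 u h4 h5 h6] at v
  have pairC2 : ∀ w u, w ≠ a → w ≠ b → w ≠ c → u ≠ a → u ≠ b → u ≠ c → w ≠ u →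
      cont4 (X.s a c w) (X.s a c u) (X.s a w u) (X.s c w u) false false (Y.s a w u) (Y.s c w u)
        = true := by
    intro w u h1 h2 h3 h4 h5 h6 h7
    have v := hC a c w u hac h1.symm h4.symm h3.symm h6.symm h7
    rwa [Y3 w h1 h2 h3, Y3 u h4 h5 h6] at v
  have pairC3 : ∀ w u, w ≠ a → w ≠ b → w ≠ c → u ≠ a → u ≠ b → u ≠ c → w ≠ u →
      cont4 (X.s b c w) (X.s b c u) (X.s b w u) (X.s c w u) true true (Y.s b w u) (Y.s c w u)
        = true := by
    intro w u h1 h2 h3 h4 h5 h6 h7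
    have v := hC b c w u hbc h2.symm h5.symm h3.symm h6.symm h7
    rwa [Y2 w h1 h2 h3, Y2 u h4 h5 h6] at v
  -- w0 lies in a cone
  obtain ⟨k0, g1, g2, g3⟩ : ∃ k : Fin 3, X.s a b w0 = e2' k ∧ X.s a c w0 = !e1' k ∧
      X.s b c w0 = e0 k := by
    rcases cls w0 w0a w0b w0c with h | h
    · exfalso
      apply hX.r1 w0 a b c hw0 w0a w0b w0c hab hbc hac
      rw [h.1, h.2.2, X.swap a c w0 hac w0c.symm w0a.symm, h.2.1]
      exact ⟨rfl, rfl⟩
    · exact h
  -- hence everything lies in a cone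
  have cls2 : ∀ x, x ≠ a → x ≠ b → x ≠ c →
      (∃ k : Fin 3, X.s a b x = e2' k ∧ X.s a c x = !e1' k ∧ X.s b c x = e0 k) := by
    intro x h1 h2 h3
    rcases cls x h1 h2 h3 with h | h
    · exfalso
      obtain ⟨m1, m2, m3⟩ := h
      have hne : w0 ≠ x := by
        intro h
        apply hX.r1 w0 a b c hw0 w0a w0b w0c hab hbc hac
        rw [h, m1, m3, X.swap a c x hac h3.symm h1.symm, m2]
        exact ⟨rfl, rfl⟩
      have v := X.five a b c w0 x hab hac w0a.symm h1.symm hbc w0b.symm h2.symm w0c.symm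
        h3.symm hne
      have q1 := pairQ w0 x w0a w0b w0c h1 h2 h3 hne
      have q2 := pairC1 w0 x w0a w0b w0c h1 h2 h3 hne
      have q3 := pairC2 w0 x w0a w0b w0c h1 h2 h3 hne
      have q4 := pairC3 w0 x w0a w0b w0c h1 h2 h3 hne
      rw [hXabc, g1, m1, g2, m2, g3, m3] at v
      rw [g1, m1] at q2
      rw [g2, m2] at q3
      rw [g3, m3] at q4
      exact cone_inner _ _ _ _ v _ _ _ q1 q2 q3 q4
    · exact h
  -- the class function
  have hκ : ∃ κ : V → Fin 3, κ a = 0 ∧ κ b = 1 ∧ κ c = 2 ∧ ∀ x, x ≠ a → x ≠ b → x ≠ c →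
      (X.s a b x = e2' (κ x) ∧ X.s a c x = !e1' (κ x) ∧ X.s b c x = e0 (κ x)) := by
    refine ⟨fun x => if x = a then 0 else if x = b then 1 else if x = c then 2 else
      if h : x ≠ a ∧ x ≠ b ∧ x ≠ c then (cls2 x h.1 h.2.1 h.2.2).choose else 0, ?_, ?_, ?_, ?_⟩
    · simp
    · simp [hab.symm]
    · simp [hac.symm, hbc.symm]
    · intro x h1 h2 h3
      have h := (cls2 x h1 h2 h3).choose_spec
      simp only [if_neg h1, if_neg h2, if_neg h3]
      rw [dif_pos ⟨h1, h2, h3⟩]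
      exact h
  obtain ⟨κ, ka, kb, kc, hκ⟩ := hκ
  let R : V → V → V → Prop := fun x y z => rl (κ x) (κ y) (κ z) (X.s x y z) (Y.s x y z) = true
  have Rrot : ∀ x y z, R x y z → R y z x := by
    intro x y z h
    change rl (κ y) (κ z) (κ x) (X.s y z x) (Y.s y z x) = true
    rw [X.rot, Y.rot, rl_rot]; exact h
  have Rswap : ∀ x y z, x ≠ y → y ≠ z → x ≠ z → R x y z → R y x z := by
    intro x y z h1 h2 h3 h
    change rl (κ y) (κ x) (κ z) (X.s y x z) (Y.s y x z) = true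
    rw [X.swap x y z h1 h2 h3, Y.swap x y z h1 h2 h3, rl_swap]; exact h
  -- level 0
  have R0 : R a b c := by
    change rl (κ a) (κ b) (κ c) (X.s a b c) (Y.s a b c) = true
    rw [ka, kb, kc, hXabc, hYabc]; decide
  -- level 1
  have R1 : ∀ x, x ≠ a → x ≠ b → x ≠ c → R a b x ∧ R b c x ∧ R a c x := by
    intro x h1 h2 h3
    obtain ⟨m1, m2, m3⟩ := hκ x h1 h2 h3
    refine ⟨?_, ?_, ?_⟩
    · change rl (κ a) (κ b) (κ x) (X.s a b x) (Y.s a b x) = true
      rw [ka, kb, m1, Y1 x h1 h2 h3]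
      generalize κ x = k; revert k; decide
    · change rl (κ b) (κ c) (κ x) (X.s b c x) (Y.s b c x) = true
      rw [kb, kc, m3, Y2 x h1 h2 h3]
      generalize κ x = k; revert k; decide
    · change rl (κ a) (κ c) (κ x) (X.s a c x) (Y.s a c x) = true
      rw [ka, kc, m2, Y3 x h1 h2 h3]
      generalize κ x = k; revert k; decide
  -- level 2
  have R2 : ∀ w u, w ≠ a → w ≠ b → w ≠ c → u ≠ a → u ≠ b → u ≠ c → w ≠ u →
      R a w u ∧ R b w u ∧ R c w u := by
    intro w u h1 h2 h3 h4 h5 h6 h7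
    obtain ⟨m1, m2, m3⟩ := hκ w h1 h2 h3
    obtain ⟨m4, m5, m6⟩ := hκ u h4 h5 h6
    have v := X.five a b c w u hab hac h1.symm h4.symm hbc h2.symm h5.symm h3.symm h6.symm h7
    have q1 := pairQ w u h1 h2 h3 h4 h5 h6 h7
    have q2 := pairC1 w u h1 h2 h3 h4 h5 h6 h7
    have q3 := pairC2 w u h1 h2 h3 h4 h5 h6 h7
    have q4 := pairC3 w u h1 h2 h3 h4 h5 h6 h7
    rw [hXabc, m1, m4, m2, m5, m3, m6] at v
    rw [m1, m4] at q2
    rw [m2, m5] at q3
    rw [m3, m6] at q4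
    have res := cone_level2 _ _ _ _ _ v _ _ _ q1 q2 q3 q4
    rw [Bool.and_eq_true, Bool.and_eq_true] at res
    refine ⟨?_, ?_, ?_⟩
    · change rl (κ a) (κ w) (κ u) _ _ = true
      rw [ka]; exact res.1.1
    · change rl (κ b) (κ w) (κ u) _ _ = true
      rw [kb]; exact res.1.2
    · change rl (κ c) (κ w) (κ u) _ _ = true
      rw [kc]; exact res.2
  have pOK : ∀ w u, w ≠ a → w ≠ b → w ≠ c → u ≠ a → u ≠ b → u ≠ c → w ≠ u →
      pairOK (κ w) (κ u) (X.s a w u) (X.s b w u) (X.s c w u) = true ∧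
      Y.s a w u = rq 0 (κ w) (κ u) (X.s a w u) ∧ Y.s b w u = rq 1 (κ w) (κ u) (X.s b w u) ∧
      Y.s c w u = rq 2 (κ w) (κ u) (X.s c w u) := by
    intro w u h1 h2 h3 h4 h5 h6 h7
    obtain ⟨m1, m2, m3⟩ := hκ w h1 h2 h3
    obtain ⟨m4, m5, m6⟩ := hκ u h4 h5 h6
    have v := X.five a b c w u hab hac h1.symm h4.symm hbc h2.symm h5.symm h3.symm h6.symm h7
    have q1 := pairQ w u h1 h2 h3 h4 h5 h6 h7
    have q2 := pairC1 w u h1 h2 h3 h4 h5 h6 h7
    have q3 := pairC2 w u h1 h2 h3 h4 h5 h6 h7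
    have q4 := pairC3 w u h1 h2 h3 h4 h5 h6 h7
    rw [hXabc, m1, m4, m2, m5, m3, m6] at v
    rw [m1, m4] at q2
    rw [m2, m5] at q3
    rw [m3, m6] at q4
    obtain ⟨r1, r2, r3⟩ := R2 w u h1 h2 h3 h4 h5 h6 h7
    change rl (κ a) (κ w) (κ u) _ _ = true at r1
    change rl (κ b) (κ w) (κ u) _ _ = true at r2
    change rl (κ c) (κ w) (κ u) _ _ = true at r3
    rw [ka] at r1
    rw [kb] at r2
    rw [kc] at r3
    obtain ⟨s1, s2⟩ := rl_iff _ _ _ _ _ r1
    obtain ⟨s3, s4⟩ := rl_iff _ _ _ _ _ r2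
    obtain ⟨s5, s6⟩ := rl_iff _ _ _ _ _ r3
    rw [s1, s3, s5] at q1
    rw [s1, s3] at q2
    rw [s1, s5] at q3
    rw [s3, s5] at q4
    refine ⟨?_, s1, s3, s5⟩
    unfold pairOK
    rw [v, q1, s2, s4, s6, q2, q3, q4]; rfl
  -- level 3
  have R3 : ∀ w u v, w ≠ a → w ≠ b → w ≠ c → u ≠ a → u ≠ b → u ≠ c → v ≠ a → v ≠ b → v ≠ c →
      w ≠ u → w ≠ v → u ≠ v → R w u v := by
    intro w u v wa wb wc ua ub uc va vb vc wu wv uv
    obtain ⟨p1, a1, b1, c1⟩ := pOK w u wa wb wc ua ub uc wu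
    obtain ⟨p2, a2, b2, c2⟩ := pOK w v wa wb wc va vb vc wv
    obtain ⟨p3, a3, b3, c3⟩ := pOK u v ua ub uc va vb vc uv
    obtain ⟨m1, m2, m3⟩ := hκ w wa wb wc
    obtain ⟨m4, m5, m6⟩ := hκ u ua ub uc
    obtain ⟨m7, m8, m9⟩ := hκ v va vb vc
    have x1 := X.five a b w u v hab wa.symm ua.symm va.symm wb.symm ub.symm vb.symm wu wv uv
    have x2 := X.five a c w u v hac wa.symm ua.symm va.symm wc.symm uc.symm vc.symm wu wv uv
    have x3 := X.five b c w u v hbc wb.symm ub.symm vb.symm wc.symm uc.symm vc.symm wu wv uv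
    have y1 := Y.five a b w u v hab wa.symm ua.symm va.symm wb.symm ub.symm vb.symm wu wv uv
    have y2 := Y.five a c w u v hac wa.symm ua.symm va.symm wc.symm uc.symm vc.symm wu wv uv
    have y3 := Y.five b c w u v hbc wb.symm ub.symm vb.symm wc.symm uc.symm vc.symm wu wv uv
    have z1 := hC a w u v wa.symm ua.symm va.symm wu wv uv
    have z2 := hC b w u v wb.symm ub.symm vb.symm wu wv uv
    have z3 := hC c w u v wc.symm uc.symm vc.symm wu wv uv
    rw [m1, m4, m7] at x1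
    rw [m2, m5, m8] at x2
    rw [m3, m6, m9] at x3
    rw [Y1 w wa wb wc, Y1 u ua ub uc, Y1 v va vb vc, a1, a2, a3, b1, b2, b3] at y1
    rw [Y3 w wa wb wc, Y3 u ua ub uc, Y3 v va vb vc, a1, a2, a3, c1, c2, c3] at y2
    rw [Y2 w wa wb wc, Y2 u ua ub uc, Y2 v va vb vc, b1, b2, b3, c1, c2, c3] at y3
    rw [a1, a2, a3] at z1
    rw [b1, b2, b3] at z2
    rw [c1, c2, c3] at z3
    refine cone_level3 _ _ _ _ _ p1 _ _ _ _ p2 _ _ _ p3 _ ?_ _ ?_
    · rw [x1, x2, x3]; rfl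
    · rw [y1, y2, y3, z1, z2, z3]; rfl
  -- all triples
  have D : ∀ x : V, (x = a ∨ x = b ∨ x = c) ∨ (x ≠ a ∧ x ≠ b ∧ x ≠ c) := by
    intro x
    by_cases h1 : x = a
    · exact Or.inl (Or.inl h1)
    · by_cases h2 : x = b
      · exact Or.inl (Or.inr (Or.inl h2))
      · by_cases h3 : x = c
        · exact Or.inl (Or.inr (Or.inr h3))
        · exact Or.inr ⟨h1, h2, h3⟩
  have S2 : ∀ x w u, (x = a ∨ x = b ∨ x = c) → (w ≠ a ∧ w ≠ b ∧ w ≠ c) →
      (u ≠ a ∧ u ≠ b ∧ u ≠ c) → w ≠ u → R x w u := by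
    intro x w u hx hw hu hwu
    obtain ⟨r1, r2, r3⟩ := R2 w u hw.1 hw.2.1 hw.2.2 hu.1 hu.2.1 hu.2.2 hwu
    rcases hx with h | h | h
    · rw [h]; exact r1
    · rw [h]; exact r2
    · rw [h]; exact r3
  have S1 : ∀ x y u, (x = a ∨ x = b ∨ x = c) → (y = a ∨ y = b ∨ y = c) →
      (u ≠ a ∧ u ≠ b ∧ u ≠ c) → x ≠ y → R x y u := by
    intro x y u hx hy hu hxy
    obtain ⟨r1, r2, r3⟩ := R1 u hu.1 hu.2.1 hu.2.2
    rcases hx with h | h | h <;> rcases hy with h' | h' | h' <;> rw [h, h']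
    · exact (hxy (h.trans h'.symm)).elim
    · exact r1
    · exact r3
    · exact Rswap _ _ _ hab hu.2.1.symm hu.1.symm r1
    · exact (hxy (h.trans h'.symm)).elim
    · exact r2
    · exact Rswap _ _ _ hac hu.2.2.symm hu.1.symm r3
    · exact Rswap _ _ _ hbc hu.2.2.symm hu.2.1.symm r2
    · exact (hxy (h.trans h'.symm)).elim
  have S0 : ∀ x y z, (x = a ∨ x = b ∨ x = c) → (y = a ∨ y = b ∨ y = c) →
      (z = a ∨ z = b ∨ z = c) → x ≠ y → y ≠ z → x ≠ z → R x y z := by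
    intro x y z hx hy hz h1 h2 h3
    have Rbca := Rrot _ _ _ R0
    have Rcab := Rrot _ _ _ Rbca
    have Rbac := Rswap _ _ _ hab hbc hac R0
    have Racb := Rrot _ _ _ Rbac
    have Rcba := Rrot _ _ _ Racb
    rcases hx with h | h | h <;> rcases hy with h' | h' | h' <;>
      rcases hz with h'' | h'' | h'' <;> subst h <;> subst h' <;> subst h'' <;>
      first
      | exact (h1 rfl).elim
      | exact (h2 rfl).elim
      | exact (h3 rfl).elim
      | assumption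
  have Rall : ∀ x y z, x ≠ y → y ≠ z → x ≠ z → R x y z := by
    intro x y z h1 h2 h3
    rcases D x with hx | hx <;> rcases D y with hy | hy <;> rcases D z with hz | hz
    · exact S0 x y z hx hy hz h1 h2 h3
    · exact S1 x y z hx hy hz h1
    · exact Rrot _ _ _ (S1 z x y hz hx hy h3.symm)
    · exact S2 x y z hx hy hz h2
    · exact Rrot _ _ _ (Rrot _ _ _ (S1 y z x hy hz hx h2))
    · exact Rrot _ _ _ (Rrot _ _ _ (S2 y z x hy hz hx h3.symm))
    · exact Rrot _ _ _ (S2 z x y hz hx hy h1)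
    · exact R3 x y z hx.1 hx.2.1 hx.2.2 hy.1 hy.2.1 hy.2.2 hz.1 hz.2.1 hz.2.2 h1 h3 h2
  intro x y z t h1 h2 h3 h4 h5 h6
  obtain ⟨q1, c1⟩ := rl_iff _ _ _ _ _ (Rall x y z h1 h4 h2)
  obtain ⟨q2, c2⟩ := rl_iff _ _ _ _ _ (Rall x y t h1 h5 h3)
  obtain ⟨q3, c3⟩ := rl_iff _ _ _ _ _ (Rall x z t h2 h6 h3)
  obtain ⟨q4, c4⟩ := rl_iff _ _ _ _ _ (Rall y z t h4 h6 h5)
  have v1 := X.four x y z t h1 h2 h3 h4 h5 h6
  have v2 := Y.four x y z t h1 h2 h3 h4 h5 h6
  have v3 := hC x y z t h1 h2 h3 h4 h5 h6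
  rw [q1, q2, q3, q4] at v2 v3
  rw [q1, q2, q3, q4]
  exact cone_level4 _ _ _ _ _ _ _ _ c1 c2 c3 c4 v1 v2 v3

end Pool.Agent.LibOT
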