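import Mathlib
import Pool.Agent.LibOT.CaseA
import Pool.Agent.LibOT.CaseB
import Pool.Agent.LibOT.CaseC

namespace Pool.Agent.LibOT

open HullData

variable {V : Type} {X Y : Chir V} {H H' : V → Prop}

theorem Cont.of_cr (h : ∀ a b c d : V, a ≠ b → a ≠ c → a ≠ d → b ≠ c → b ≠ d → c ≠ d →
    X.cr a b c d → Y.cr a b c d) : Cont X Y := by
  intro a b c d h1 h2 h3 h4 h5 h6
  have k1 := h a b c d h1 h2 h3 h4 h5 h6
  have k2 := h a c b d h2 h1 h3 h4.symm h6 h5
  have k3 := h a d b c h3 h1 h2 h5.symm h6.symm h4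
  unfold Chir.cr at k1 k2 k3
  rw [X.rot a c d, X.rot b c d, Y.rot a c d, Y.rot b c d] at k1
  rw [X.swap' a b c h1 h4 h2, X.rot a b d, X.swap' b c d h4 h6 h5,
    Y.swap' a b c h1 h4 h2, Y.rot a b d, Y.swap' b c d h4 h6 h5] at k2
  rw [X.swap' a b d h1 h5 h3, X.swap' a c d h2 h6 h3, X.rot a b c,
    Y.swap' a b d h1 h5 h3, Y.swap' a c d h2 h6 h3, Y.rot a b c] at k3
  revert k1 k2 k3
  generalize X.s a b c = p1, X.s a b d = p2, X.s a c d = p3, X.s b c d = p4
  generalize Y.s a b c = q1, Y.s a b d = q2, Y.s a c d = q3, Y.s b c d = q4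
  revert p1 p2 p3 p4 q1 q2 q3 q4
  decide

theorem cr_of_cont4 {a b c d : V}
    (h : cont4 (Y.s a b c) (Y.s a b d) (Y.s a c d) (Y.s b c d)
      (X.s a b c) (X.s a b d) (X.s a c d) (X.s b c d) = true) (hY : Y.cr a b c d) :
    X.cr a b c d := by
  unfold Chir.cr at hY ⊢
  rw [Y.rot a c d, Y.rot b c d] at hY
  rw [X.rot a c d, X.rot b c d]
  revert h hY
  generalize X.s a b c = p1, X.s a b d = p2, X.s a c d = p3, X.s b c d = p4
  generalize Y.s a b c = q1, Y.s a b d = q2, Y.s a c d = q3, Y.s b c d = q4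
  revert p1 p2 p3 p4 q1 q2 q3 q4
  decide

theorem Cont.mirror_right (h : Cont X Y) : Cont X Y.mirror := by
  intro a b c d m1 m2 m3 m4 m5 m6
  change cont4 _ _ _ _ (!_) (!_) (!_) (!_) = true
  rw [cont4_not]
  exact h a b c d m1 m2 m3 m4 m5 m6

theorem Cont.mirror_left (h : Cont X Y) : Cont X.mirror Y := by
  intro a b c d m1 m2 m3 m4 m5 m6
  change cont4 (!_) (!_) (!_) (!_) _ _ _ _ = true
  rw [cont4_not']
  exact h a b c d m1 m2 m3 m4 m5 m6

/-- Case C without orientation assumptions -/
theorem caseC' (hX : HullData X H) (hY : HullData Y H') (hC : Cont X Y) {a b c w0 : V}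
    (hab : a ≠ b) (hbc : b ≠ c) (hac : a ≠ c) (hH' : ∀ x, H' x → x = a ∨ x = b ∨ x = c)
    (hw0 : H w0) (w0a : w0 ≠ a) (w0b : w0 ≠ b) (w0c : w0 ≠ c) :
    ∀ x y z t, x ≠ y → x ≠ z → x ≠ t → y ≠ z → y ≠ t → z ≠ t →
      Y.cr x y z t → X.cr x y z t := by
  have key : ∀ X Y : Chir V, HullData X H → HullData Y H' → Cont X Y →
      X.s a b c = true → Y.s a b c = true → ∀ x y z t, x ≠ y → x ≠ z → x ≠ t → y ≠ z → y ≠ t →
      z ≠ t → Y.cr x y z t → X.cr x y z t := by
    intro X Y hX hY hC e1 e2 x y z t h1 h2 h3 h4 h5 h6 hcr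
    exact cr_of_cont4 (caseC hX hY hC hab hbc hac hH' e1 e2 hw0 w0a w0b w0c x y z t
      h1 h2 h3 h4 h5 h6) hcr
  intro x y z t h1 h2 h3 h4 h5 h6 hcr
  rcases e1 : X.s a b c with _ | _ <;> rcases e2 : Y.s a b c with _ | _
  · have := key X.mirror Y.mirror hX.mirror hY.mirror hC.mirror_left.mirror_right
      (by change (!X.s a b c) = true; rw [e1]; rfl) (by change (!Y.s a b c) = true; rw [e2]; rfl)
      x y z t h1 h2 h3 h4 h5 h6 ((Y.cr_mirror x y z t).mpr hcr)
    exact (X.cr_mirror x y z t).mp this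
  · have := key X.mirror Y hX.mirror hY hC.mirror_left
      (by change (!X.s a b c) = true; rw [e1]; rfl) e2
      x y z t h1 h2 h3 h4 h5 h6 hcr
    exact (X.cr_mirror x y z t).mp this
  · exact key X Y.mirror hX hY.mirror hC.mirror_right
      e1 (by change (!Y.s a b c) = true; rw [e2]; rfl)
      x y z t h1 h2 h3 h4 h5 h6 ((Y.cr_mirror x y z t).mpr hcr)
  · exact key X Y hX hY hC e1 e2 x y z t h1 h2 h3 h4 h5 h6 hcr

open Classical in
theorem core [Fintype V] (hX : HullData X H) (hY : HullData Y H') (hC : Cont X Y)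
    (hcard : (Finset.univ.filter H').card ≤ (Finset.univ.filter H).card) :
    ∀ a b c d : V, a ≠ b → a ≠ c → a ≠ d → b ≠ c → b ≠ d → c ≠ d → Y.cr a b c d →
      X.cr a b c d := by
  intro a b c d h1 h2 h3 h4 h5 h6 hcr
  have hVcard : 4 ≤ Fintype.card V := by
    have : ({a, b, c, d} : Finset V).card = 4 := by
      rw [Finset.card_insert_of_notMem, Finset.card_insert_of_notMem, Finset.card_insert_of_notMem,
        Finset.card_singleton] <;> simp [h1, h2, h3, h4, h5, h6]
    rw [← this]; exact Finset.card_le_univ _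
  have three : ∀ {Z : Chir V} {K : V → Prop}, HullData Z K →
      ∃ p q r, K p ∧ K q ∧ K r ∧ p ≠ q ∧ q ≠ r ∧ p ≠ r := by
    intro Z K hZ
    obtain ⟨p, hp, _, _⟩ := hZ.third h1 h2.symm h4.symm
    obtain ⟨y, hy⟩ : ∃ y, y ≠ p := by
      by_cases hh : a = p
      · exact ⟨b, fun h => h1 (hh.trans h.symm)⟩
      · exact ⟨a, hh⟩
    have hout : ∀ u v : V, ∃ x, x ≠ u ∧ x ≠ v := by
      intro u v
      by_contra hcon
      push Not at hcon
      have hsub : (Finset.univ : Finset V) ⊆ {u, v} := by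
        intro x _
        by_cases hxu : x = u
        · simp [hxu]
        · simp [hcon x hxu]
      have := Finset.card_le_card hsub
      have h2' : ({u, v} : Finset V).card ≤ 2 := Finset.card_le_two
      rw [Finset.card_univ] at this
      omega
    obtain ⟨x, hx1, hx2⟩ := hout p y
    obtain ⟨q, hq, hq1, _⟩ := hZ.third hy.symm hx1 hx2
    obtain ⟨x', hx1', hx2'⟩ := hout p q
    obtain ⟨r, hr, hr1, hr2⟩ := hZ.third hq1.symm hx1' hx2'
    exact ⟨p, q, r, hp, hq, hr, hq1.symm, hr2.symm, hr1.symm⟩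
  have finish : (∀ u, H u ↔ H' u) → X.cr a b c d := by
    intro hh
    have hHH : H = H' := funext fun u => propext (hh u)
    subst hHH
    obtain ⟨p, q, r, hp, hq, _, hpq, hqr, hpr⟩ := three hX
    exact caseA hX hY hC hp hq hpq hqr hpr a b c d h1 h2 h3 h4 h5 h6 hcr
  by_cases h4c : 4 ≤ (Finset.univ.filter H).card
  · have hex : ∀ x y z : V, ∃ k, H k ∧ k ≠ x ∧ k ≠ y ∧ k ≠ z := by
      intro x y z
      by_contra hcon
      push Not at hcon
      have hsub : Finset.univ.filter H ⊆ {x, y, z} := by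
        intro k hk
        simp only [Finset.mem_filter, Finset.mem_univ, true_and] at hk
        by_cases hkx : k = x
        · simp [hkx]
        · by_cases hky : k = y
          · simp [hky]
          · simp [hcon k hk hkx hky]
      have := Finset.card_le_card hsub
      have h3' : ({x, y, z} : Finset V).card ≤ 3 := Finset.card_le_three
      omega
    have hsub : Finset.univ.filter H ⊆ Finset.univ.filter H' := by
      intro u hu
      simp only [Finset.mem_filter, Finset.mem_univ, true_and] at hu ⊢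
      exact hull_sub hX hY hC hu hex
    have heq := Finset.eq_of_subset_of_card_le hsub hcard
    apply finish
    intro u
    have := Finset.ext_iff.mp heq u
    simpa using this
  · obtain ⟨p, q, r, hp, hq, hr, hpq, hqr, hpr⟩ := three hY
    have hsub : ({p, q, r} : Finset V) ⊆ Finset.univ.filter H' := by
      intro u hu
      simp only [Finset.mem_insert, Finset.mem_singleton] at hu
      simp only [Finset.mem_filter, Finset.mem_univ, true_and]
      rcases hu with h | h | h <;> rw [h] <;> assumption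
    have hc3 : ({p, q, r} : Finset V).card = 3 := by
      rw [Finset.card_insert_of_notMem, Finset.card_insert_of_notMem, Finset.card_singleton] <;>
        simp [hpq, hqr, hpr]
    have heq := Finset.eq_of_subset_of_card_le hsub (by omega)
    have hH' : ∀ x, H' x → x = p ∨ x = q ∨ x = r := by
      intro x hx
      have : x ∈ ({p, q, r} : Finset V) := by rw [heq]; simp [hx]
      simpa using this
    by_cases hw : ∃ w0, H w0 ∧ ¬ H' w0
    · obtain ⟨w0, hw0, hw0'⟩ := hw
      exact caseC' hX hY hC hpq hqr hpr hH' hw0 (fun h => hw0' (h ▸ hp)) (fun h => hw0' (h ▸ hq))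
        (fun h => hw0' (h ▸ hr)) a b c d h1 h2 h3 h4 h5 h6 hcr
    · push Not at hw
      have hsub' : Finset.univ.filter H ⊆ Finset.univ.filter H' := by
        intro u hu
        simp only [Finset.mem_filter, Finset.mem_univ, true_and] at hu ⊢
        exact hw u hu
      have heq' := Finset.eq_of_subset_of_card_le hsub' hcard
      apply finish
      intro u
      have := Finset.ext_iff.mp heq' u
      simpa using this

end Pool.Agent.LibOT
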