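import Mathlib
import Pool.Agent.LibOT.Core

/-!
Passing from points of the real plane to the sign calculus.
-/

namespace Pool.Agent.LibOT

/-- twice the signed area of the triangle `a b c` -/
def D (a b c : ℝ × ℝ) : ℝ := (b.1 - a.1) * (c.2 - a.2) - (b.2 - a.2) * (c.1 - a.1)

theorem D_rot (a b c : ℝ × ℝ) : D b c a = D a b c := by unfold D; ring

theorem D_swap (a b c : ℝ × ℝ) : D b a c = -D a b c := by unfold D; ring

theorem D_swap' (a b c : ℝ × ℝ) : D a c b = -D a b c := by unfold D; ring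

theorem D_four (a b c d : ℝ × ℝ) : D b c d - D a c d + D a b d - D a b c = 0 := by
  unfold D; ring

theorem D_gp (a b c d e : ℝ × ℝ) :
    D a b c * D a d e - D a b d * D a c e + D a b e * D a c d = 0 := by
  unfold D; ring

theorem D_comb (a b x y : ℝ × ℝ) (s t : ℝ) (h : s + t = 1) :
    D a b (s • x + t • y) = s * D a b x + t * D a b y := by
  have : s = 1 - t := by linarith
  subst this
  unfold D
  simp only [Prod.fst_add, Prod.snd_add, Prod.smul_fst, Prod.smul_snd, smul_eq_mul]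
  ring

theorem D_self1 (a b : ℝ × ℝ) : D a b a = 0 := by unfold D; ring

theorem D_self2 (a b : ℝ × ℝ) : D a b b = 0 := by unfold D; ring

theorem D_self3 (a b : ℝ × ℝ) : D a a b = 0 := by unfold D; ring

theorem D_ne_zero {a b c : ℝ × ℝ} (h : ¬ Collinear ℝ ({a, b, c} : Set (ℝ × ℝ))) : D a b c ≠ 0 := by
  intro h0
  apply h
  by_cases hab : a = b
  · subst hab
    simpa using collinear_pair ℝ a c
  rw [collinear_iff_of_mem (p₀ := a) (by simp)]
  refine ⟨b - a, ?_⟩
  intro p hp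
  simp only [Set.mem_insert_iff, Set.mem_singleton_iff] at hp
  rcases hp with rfl | rfl | rfl
  · exact ⟨0, by simp⟩
  · exact ⟨1, by simp⟩
  · unfold D at h0
    by_cases h1 : b.1 - a.1 = 0
    · have h2 : b.2 - a.2 ≠ 0 := by
        intro h2
        apply hab
        apply Prod.ext
        · linarith
        · linarith
      have h3 : p.1 - a.1 = 0 := by
        rw [h1] at h0
        have : (b.2 - a.2) * (p.1 - a.1) = 0 := by linarith
        rcases mul_eq_zero.mp this with h | h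
        · exact absurd h h2
        · exact h
      refine ⟨(p.2 - a.2) / (b.2 - a.2), ?_⟩
      apply Prod.ext
      · simp only [vadd_eq_add, Prod.fst_add, Prod.smul_fst, Prod.fst_sub, smul_eq_mul, h1]
        linarith
      · simp only [vadd_eq_add, Prod.snd_add, Prod.smul_snd, Prod.snd_sub, smul_eq_mul]
        rw [div_mul_cancel₀ _ h2]
        ring
    · refine ⟨(p.1 - a.1) / (b.1 - a.1), ?_⟩
      apply Prod.ext
      · simp only [vadd_eq_add, Prod.fst_add, Prod.smul_fst, Prod.fst_sub, smul_eq_mul]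
        rw [div_mul_cancel₀ _ h1]
        ring
      · simp only [vadd_eq_add, Prod.snd_add, Prod.smul_snd, Prod.snd_sub, smul_eq_mul]
        have : (p.1 - a.1) / (b.1 - a.1) * (b.2 - a.2) = p.2 - a.2 := by
          rw [div_mul_eq_mul_div, div_eq_iff h1]
          linarith
        rw [this]
        ring

theorem gpD (p q r s t u : ℝ) (hp : p ≠ 0) (hq : q ≠ 0) (hr : r ≠ 0) (hs : s ≠ 0) (ht : t ≠ 0)
    (hu : u ≠ 0) (h : p * q - r * s + t * u = 0) :
    gp (decide (0 < p)) (decide (0 < q)) (decide (0 < r)) (decide (0 < s)) (decide (0 < t))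
      (decide (0 < u)) = true := by
  unfold gp
  rcases lt_or_gt_of_ne hp with h1 | h1 <;> rcases lt_or_gt_of_ne hq with h2 | h2 <;>
  rcases lt_or_gt_of_ne hr with h3 | h3 <;> rcases lt_or_gt_of_ne hs with h4 | h4 <;>
  rcases lt_or_gt_of_ne ht with h5 | h5 <;> rcases lt_or_gt_of_ne hu with h6 | h6 <;>
  (first
    | (simp [h1, h2, h3, h4, h5, h6, not_lt_of_gt h1, not_lt_of_gt h2, not_lt_of_gt h3,
        not_lt_of_gt h4, not_lt_of_gt h5, not_lt_of_gt h6]; done)
    | (exfalso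
       have a1 : 0 < p * q ∨ p * q < 0 := lt_or_gt_of_ne (mul_ne_zero hp hq).symm
       first
        | nlinarith [mul_pos h1 h2, mul_pos h5 h6, mul_neg_of_pos_of_neg h3 h4]
        | nlinarith [mul_pos h1 h2, mul_pos h5 h6, mul_neg_of_neg_of_pos h3 h4]
        | nlinarith [mul_pos h1 h2, mul_pos_of_neg_of_neg h5 h6, mul_neg_of_pos_of_neg h3 h4]
        | nlinarith [mul_pos h1 h2, mul_pos_of_neg_of_neg h5 h6, mul_neg_of_neg_of_pos h3 h4]
        | nlinarith [mul_pos_of_neg_of_neg h1 h2, mul_pos h5 h6, mul_neg_of_pos_of_neg h3 h4]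
        | nlinarith [mul_pos_of_neg_of_neg h1 h2, mul_pos h5 h6, mul_neg_of_neg_of_pos h3 h4]
        | nlinarith [mul_pos_of_neg_of_neg h1 h2, mul_pos_of_neg_of_neg h5 h6,
            mul_neg_of_pos_of_neg h3 h4]
        | nlinarith [mul_pos_of_neg_of_neg h1 h2, mul_pos_of_neg_of_neg h5 h6,
            mul_neg_of_neg_of_pos h3 h4]
        | nlinarith [mul_neg_of_pos_of_neg h1 h2, mul_neg_of_pos_of_neg h5 h6, mul_pos h3 h4]
        | nlinarith [mul_neg_of_pos_of_neg h1 h2, mul_neg_of_pos_of_neg h5 h6,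
            mul_pos_of_neg_of_neg h3 h4]
        | nlinarith [mul_neg_of_pos_of_neg h1 h2, mul_neg_of_neg_of_pos h5 h6, mul_pos h3 h4]
        | nlinarith [mul_neg_of_pos_of_neg h1 h2, mul_neg_of_neg_of_pos h5 h6,
            mul_pos_of_neg_of_neg h3 h4]
        | nlinarith [mul_neg_of_neg_of_pos h1 h2, mul_neg_of_pos_of_neg h5 h6, mul_pos h3 h4]
        | nlinarith [mul_neg_of_neg_of_pos h1 h2, mul_neg_of_pos_of_neg h5 h6,
            mul_pos_of_neg_of_neg h3 h4]
        | nlinarith [mul_neg_of_neg_of_pos h1 h2, mul_neg_of_neg_of_pos h5 h6, mul_pos h3 h4]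
        | nlinarith [mul_neg_of_neg_of_pos h1 h2, mul_neg_of_neg_of_pos h5 h6,
            mul_pos_of_neg_of_neg h3 h4]))

theorem v4D (x123 x124 x134 x234 : ℝ) (h1 : x123 ≠ 0) (h2 : x124 ≠ 0) (h3 : x134 ≠ 0)
    (h4 : x234 ≠ 0) (h : x234 - x134 + x124 - x123 = 0) :
    v4 (decide (0 < x123)) (decide (0 < x124)) (decide (0 < x134)) (decide (0 < x234)) = true := by
  unfold v4
  rcases lt_or_gt_of_ne h1 with k1 | k1 <;> rcases lt_or_gt_of_ne h2 with k2 | k2 <;>
  rcases lt_or_gt_of_ne h3 with k3 | k3 <;> rcases lt_or_gt_of_ne h4 with k4 | k4 <;>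
  (first
    | (simp [k1, k2, k3, k4, not_lt_of_gt k1, not_lt_of_gt k2, not_lt_of_gt k3,
        not_lt_of_gt k4]; done)
    | (exfalso; linarith))

variable {V : Type}

/-- points of the plane, any three different indices giving a nondegenerate triangle -/
def Gen (P : V → ℝ × ℝ) : Prop :=
  ∀ i j k : V, i ≠ j → i ≠ k → j ≠ k → D (P i) (P j) (P k) ≠ 0

theorem dec_neg {x : ℝ} (hx : x ≠ 0) : decide (0 < -x) = !decide (0 < x) := by
  rcases lt_or_gt_of_ne hx with h | h
  · simp [h, not_lt_of_gt h]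
  · simp [h, not_lt_of_gt h]

/-- the orientation predicate of a point configuration -/
noncomputable def chirOf (P : V → ℝ × ℝ) (hP : Gen P) : Chir V where
  s i j k := decide (0 < D (P i) (P j) (P k))
  rot i j k := by rw [D_rot]
  swap i j k h1 h2 h3 := by rw [D_swap, dec_neg (hP i j k h1 h3 h2)]
  four i j k l h1 h2 h3 h4 h5 h6 :=
    v4D _ _ _ _ (hP i j k h1 h2 h4) (hP i j l h1 h3 h5) (hP i k l h2 h3 h6) (hP j k l h4 h5 h6)
      (D_four _ _ _ _)
  five a b c d e h1 h2 h3 h4 h5 h6 h7 h8 h9 h10 := by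
    have q1 := gpD _ _ _ _ _ _ (hP a b c h1 h2 h5) (hP a d e h3 h4 h10) (hP a b d h1 h3 h6)
      (hP a c e h2 h4 h9) (hP a b e h1 h4 h7) (hP a c d h2 h3 h8) (D_gp (P a) (P b) (P c) (P d) (P e))
    have q2 := gpD _ _ _ _ _ _ (hP b a c h1.symm h5 h2) (hP b d e h6 h7 h10)
      (hP b a d h1.symm h6 h3) (hP b c e h5 h7 h9) (hP b a e h1.symm h7 h4) (hP b c d h5 h6 h8)
      (D_gp (P b) (P a) (P c) (P d) (P e))
    have q3 := gpD _ _ _ _ _ _ (hP c a b h2.symm h5.symm h1) (hP c d e h8 h9 h10)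
      (hP c a d h2.symm h8 h3) (hP c b e h5.symm h9 h7) (hP c a e h2.symm h9 h4)
      (hP c b d h5.symm h8 h6)
      (D_gp (P c) (P a) (P b) (P d) (P e))
    have q4 := gpD _ _ _ _ _ _ (hP d a b h3.symm h6.symm h1) (hP d c e h8.symm h10 h9)
      (hP d a c h3.symm h8.symm h2) (hP d b e h6.symm h10 h7) (hP d a e h3.symm h10 h4)
      (hP d b c h6.symm h8.symm h5)
      (D_gp (P d) (P a) (P b) (P c) (P e))
    have q5 := gpD _ _ _ _ _ _ (hP e a b h4.symm h7.symm h1) (hP e c d h9.symm h10.symm h8)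
      (hP e a c h4.symm h9.symm h2) (hP e b d h7.symm h10.symm h6) (hP e a d h4.symm h10.symm h3)
      (hP e b c h7.symm h9.symm h5)
      (D_gp (P e) (P a) (P b) (P c) (P d))
    have r1 := v4D _ _ _ _ (hP a b c h1 h2 h5) (hP a b d h1 h3 h6) (hP a c d h2 h3 h8)
      (hP b c d h5 h6 h8) (D_four _ _ _ _)
    have r2 := v4D _ _ _ _ (hP a b c h1 h2 h5) (hP a b e h1 h4 h7) (hP a c e h2 h4 h9)
      (hP b c e h5 h7 h9) (D_four _ _ _ _)
    have r3 := v4D _ _ _ _ (hP a b d h1 h3 h6) (hP a b e h1 h4 h7) (hP a d e h3 h4 h10)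
      (hP b d e h6 h7 h10) (D_four _ _ _ _)
    have r4 := v4D _ _ _ _ (hP a c d h2 h3 h8) (hP a c e h2 h4 h9) (hP a d e h3 h4 h10)
      (hP c d e h8 h9 h10) (D_four _ _ _ _)
    have r5 := v4D _ _ _ _ (hP b c d h5 h6 h8) (hP b c e h5 h7 h9) (hP b d e h6 h7 h10)
      (hP c d e h8 h9 h10) (D_four _ _ _ _)
    rw [D_swap (P a) (P b) (P c), dec_neg (hP a b c h1 h2 h5),
      D_swap (P a) (P b) (P d), dec_neg (hP a b d h1 h3 h6),
      D_swap (P a) (P b) (P e), dec_neg (hP a b e h1 h4 h7)] at q2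
    rw [← D_rot (P c) (P a) (P b),
      D_swap (P a) (P c) (P d), dec_neg (hP a c d h2 h3 h8),
      D_swap (P b) (P c) (P e), dec_neg (hP b c e h5 h7 h9),
      D_swap (P a) (P c) (P e), dec_neg (hP a c e h2 h4 h9),
      D_swap (P b) (P c) (P d), dec_neg (hP b c d h5 h6 h8)] at q3
    rw [← D_rot (P d) (P a) (P b), ← D_rot (P d) (P a) (P c), ← D_rot (P d) (P b) (P c),
      D_swap (P c) (P d) (P e), dec_neg (hP c d e h8 h9 h10),
      D_swap (P b) (P d) (P e), dec_neg (hP b d e h6 h7 h10),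
      D_swap (P a) (P d) (P e), dec_neg (hP a d e h3 h4 h10)] at q4
    rw [← D_rot (P e) (P a) (P b), ← D_rot (P e) (P c) (P d), ← D_rot (P e) (P a) (P c),
      ← D_rot (P e) (P b) (P d), ← D_rot (P e) (P a) (P d), ← D_rot (P e) (P b) (P c)] at q5
    unfold v5
    rw [q1, q2, q3, q4, q5, r1, r2, r3, r4, r5]
    rfl

theorem chirOf_s (P : V → ℝ × ℝ) (hP : Gen P) (i j k : V) :
    (chirOf P hP).s i j k = decide (0 < D (P i) (P j) (P k)) := rfl

/-- signs of two nonzero reals agree -/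
theorem dec_eq_iff {x y : ℝ} (hx : x ≠ 0) (hy : y ≠ 0) :
    decide (0 < x) = decide (0 < y) ↔ 0 < x * y := by
  rcases lt_or_gt_of_ne hx with h | h <;> rcases lt_or_gt_of_ne hy with k | k
  · simp [not_lt_of_gt h, not_lt_of_gt k, mul_pos_of_neg_of_neg h k]
  · have := mul_neg_of_neg_of_pos h k
    simp [not_lt_of_gt h, k, this.le]
  · have := mul_neg_of_pos_of_neg h k
    simp [not_lt_of_gt k, h, this.le]
  · simp [h, k]

theorem convex_half (a b : ℝ × ℝ) (e : ℝ) : Convex ℝ {x : ℝ × ℝ | 0 ≤ e * D a b x} := by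
  intro x hx y hy s t hs ht hst
  simp only [Set.mem_ofPred_eq] at hx hy ⊢
  rw [D_comb _ _ _ _ _ _ hst]
  have : e * (s * D a b x + t * D a b y) = s * (e * D a b x) + t * (e * D a b y) := by ring
  rw [this]
  positivity

/-- extreme points of the convex hull -/
def Ext (P : V → ℝ × ℝ) (i : V) : Prop :=
  P i ∈ (convexHull ℝ (Set.range P)).extremePoints ℝ

theorem hull_eq [Finite V] (P : V → ℝ × ℝ) :
    convexHull ℝ (Set.range P) = convexHull ℝ (P '' {i | Ext P i}) := by
  have hfin : (Set.range P).Finite := Set.finite_range P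
  have hcomp : IsCompact (convexHull ℝ (Set.range P)) := hfin.isCompact_convexHull (𝕜 := ℝ)
  have h1 := closure_convexHull_extremePoints hcomp (convex_convexHull ℝ _)
  have h2 : (convexHull ℝ (Set.range P)).extremePoints ℝ = P '' {i | Ext P i} := by
    ext x
    constructor
    · intro hx
      have : x ∈ Set.range P := extremePoints_convexHull_subset hx
      obtain ⟨i, rfl⟩ := this
      exact ⟨i, hx, rfl⟩
    · rintro ⟨i, hi, rfl⟩
      exact hi
  rw [h2] at h1
  have h3 : (P '' {i | Ext P i}).Finite := Set.toFinite _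
  have h4 : IsClosed (convexHull ℝ (P '' {i | Ext P i})) := h3.isClosed_convexHull (𝕜 := ℝ)
  rw [h4.closure_eq] at h1
  exact h1.symm

end Pool.Agent.LibOT
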