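import Mathlib
import Pool.Agent.LibOT.Geom

namespace Pool.Agent.LibOT

variable {V : Type}

theorem Gen.ne {P : V → ℝ × ℝ} (hP : Gen P) {i j k : V} (h1 : i ≠ j) (h2 : i ≠ k) (h3 : j ≠ k) :
    P i ≠ P j := by
  intro h
  apply hP i j k h1 h2 h3
  rw [h, D_self3]

theorem ext_r1 {P : V → ℝ × ℝ} (hP : Gen P) (v a b c : V) (hv : Ext P v) (va : v ≠ a)
    (vb : v ≠ b) (vc : v ≠ c) (ab : a ≠ b) (bc : b ≠ c) (ac : a ≠ c) :
    ¬ ((chirOf P hP).s a b v = (chirOf P hP).s b c v ∧
      (chirOf P hP).s b c v = (chirOf P hP).s c a v) := by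
  rintro ⟨h1, h2⟩
  rw [chirOf_s, chirOf_s, dec_eq_iff (hP _ _ _ ab va.symm vb.symm) (hP _ _ _ bc vb.symm vc.symm)]
    at h1
  rw [chirOf_s, chirOf_s, dec_eq_iff (hP _ _ _ bc vb.symm vc.symm)
    (hP _ _ _ ac.symm vc.symm va.symm)] at h2
  -- weights
  have key : ∀ α β γ : ℝ, 0 < α → 0 < β → 0 < γ → (α + β + γ) • P v = α • P a + β • P b + γ • P c →
      False := by
    intro α β γ hα hβ hγ h
    have hmem := mem_extremePoints.mp hv
    have hbc : β + γ ≠ 0 := by positivity
    have hs : α + β + γ ≠ 0 := by positivity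
    have hy : (β / (β + γ)) • P b + (γ / (β + γ)) • P c ∈ convexHull ℝ (Set.range P) := by
      apply convex_convexHull ℝ (Set.range P) (subset_convexHull _ _ ⟨b, rfl⟩)
        (subset_convexHull _ _ ⟨c, rfl⟩) (by positivity) (by positivity)
      field_simp
    have h3 := (hmem.2 (P a) (subset_convexHull _ _ ⟨a, rfl⟩) _ hy
      ⟨α / (α + β + γ), (β + γ) / (α + β + γ), by positivity, by positivity,
        by field_simp; ring, by
          have e1 : ((β + γ) / (α + β + γ)) • ((β / (β + γ)) • P b + (γ / (β + γ)) • P c)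
              = (1 / (α + β + γ)) • (β • P b + γ • P c) := by
            rw [smul_add, smul_add, smul_smul, smul_smul, smul_smul, smul_smul]
            congr 2
            · field_simp
            · field_simp
          have e2 : (α / (α + β + γ)) • P a = (1 / (α + β + γ)) • (α • P a) := by
            rw [smul_smul]; congr 1; field_simp
          rw [e1, e2, ← smul_add, ← add_assoc, ← h, smul_smul]
          rw [one_div, inv_mul_cancel₀ hs, one_smul]⟩).1
    exact hP.ne va.symm ab vb h3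
  have hid : (D (P b) (P c) (P v) + D (P c) (P a) (P v) + D (P a) (P b) (P v)) • P v =
      D (P b) (P c) (P v) • P a + D (P c) (P a) (P v) • P b + D (P a) (P b) (P v) • P c := by
    apply Prod.ext
    · simp only [Prod.smul_fst, Prod.fst_add, smul_eq_mul]
      unfold D; ring
    · simp only [Prod.smul_snd, Prod.snd_add, smul_eq_mul]
      unfold D; ring
  rcases lt_or_gt_of_ne (hP _ _ _ ab va.symm vb.symm) with k | k
  · have k2 : D (P b) (P c) (P v) < 0 := by
      by_contra hc
      push Not at hc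
      nlinarith [mul_nonpos_of_nonpos_of_nonneg k.le hc]
    have k3 : D (P c) (P a) (P v) < 0 := by
      by_contra hc
      push Not at hc
      nlinarith [mul_nonpos_of_nonpos_of_nonneg k2.le hc]
    refine key (-D (P b) (P c) (P v)) (-D (P c) (P a) (P v)) (-D (P a) (P b) (P v))
      (by linarith) (by linarith) (by linarith) ?_
    have : (-D (P b) (P c) (P v) + -D (P c) (P a) (P v) + -D (P a) (P b) (P v)) =
      -(D (P b) (P c) (P v) + D (P c) (P a) (P v) + D (P a) (P b) (P v)) := by ring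
    rw [this, neg_smul, hid, neg_smul, neg_smul, neg_smul]
    abel
  · have k2 : 0 < D (P b) (P c) (P v) := by
      by_contra hc
      push Not at hc
      nlinarith [mul_nonpos_of_nonneg_of_nonpos k.le hc]
    have k3 : 0 < D (P c) (P a) (P v) := by
      by_contra hc
      push Not at hc
      nlinarith [mul_nonpos_of_nonneg_of_nonpos k2.le hc]
    exact key _ _ _ k2 k3 k hid

theorem ext_hs [Finite V] {P : V → ℝ × ℝ} (hP : Gen P) (a b : V) (e : Bool) (ab : a ≠ b)
    (h : ∀ h, Ext P h → h ≠ a → h ≠ b → (chirOf P hP).s a b h = e) (x : V) (xa : x ≠ a)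
    (xb : x ≠ b) : (chirOf P hP).s a b x = e := by
  have hx : P x ∈ convexHull ℝ (P '' {i | Ext P i}) := by
    rw [← hull_eq]
    exact subset_convexHull _ _ ⟨x, rfl⟩
  have hne := hP _ _ _ ab xa.symm xb.symm
  rcases e with _ | _
  · have hsub : convexHull ℝ (P '' {i | Ext P i}) ⊆ {y : ℝ × ℝ | 0 ≤ (-1) * D (P a) (P b) y} := by
      apply convexHull_min _ (convex_half _ _ _)
      rintro _ ⟨i, hi, rfl⟩
      rw [Set.mem_ofPred_eq]
      by_cases h1 : i = a
      · rw [h1, D_self1]; norm_num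
      by_cases h2 : i = b
      · rw [h2, D_self2]; norm_num
      have := h i hi h1 h2
      rw [chirOf_s, decide_eq_false_iff_not] at this
      linarith
    have h1 := hsub hx
    rw [Set.mem_ofPred_eq] at h1
    rw [chirOf_s, decide_eq_false_iff_not]
    linarith
  · have hsub : convexHull ℝ (P '' {i | Ext P i}) ⊆ {y : ℝ × ℝ | 0 ≤ 1 * D (P a) (P b) y} := by
      apply convexHull_min _ (convex_half _ _ _)
      rintro _ ⟨i, hi, rfl⟩
      rw [Set.mem_ofPred_eq]
      by_cases h1 : i = a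
      · rw [h1, D_self1]; norm_num
      by_cases h2 : i = b
      · rw [h2, D_self2]; norm_num
      have := h i hi h1 h2
      rw [chirOf_s, decide_eq_true_iff] at this
      linarith
    have h1 := hsub hx
    rw [Set.mem_ofPred_eq] at h1
    rw [chirOf_s, decide_eq_true_iff]
    rcases lt_or_gt_of_ne hne with h | h
    · linarith
    · exact h

theorem carath [Finite V] {P : V → ℝ × ℝ} (v : V) : ∃ (n : ℕ) (z : Fin n → V) (w : Fin n → ℝ),
    n ≤ 3 ∧ Function.Injective z ∧ (∀ i, Ext P (z i)) ∧ (∀ i, 0 < w i) ∧ ∑ i, w i = 1 ∧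
      ∑ i, w i • P (z i) = P v := by
  have hv : P v ∈ convexHull ℝ (P '' {i | Ext P i}) := by
    rw [← hull_eq]
    exact subset_convexHull _ _ ⟨v, rfl⟩
  obtain ⟨ι, hι, z, w, hz, haff, hw, hw1, hwx⟩ := eq_pos_convex_span_of_mem_convexHull hv
  have hcard : Fintype.card ι ≤ 3 := by
    have h1 := haff.card_le_finrank_succ
    have h2 : Module.finrank ℝ (vectorSpan ℝ (Set.range z)) ≤ Module.finrank ℝ (ℝ × ℝ) :=
      Submodule.finrank_le _
    have h3 : Module.finrank ℝ (ℝ × ℝ) = 2 := by simp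
    omega
  have hg : ∀ i, ∃ j, Ext P j ∧ P j = z i := by
    intro i
    obtain ⟨j, hj, hj2⟩ := hz ⟨i, rfl⟩
    exact ⟨j, hj, hj2⟩
  choose g hg1 hg2 using hg
  let e := Fintype.equivFin ι
  refine ⟨Fintype.card ι, fun j => g (e.symm j), fun j => w (e.symm j), hcard, ?_, ?_, ?_, ?_, ?_⟩
  · intro i j hij
    have : z (e.symm i) = z (e.symm j) := by
      rw [← hg2, ← hg2]; exact congrArg P hij
    have := haff.injective this
    exact e.symm.injective this
  · intro i; exact hg1 _
  · intro i; exact hw _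
  · rw [← hw1]
    exact Equiv.sum_comp e.symm w
  · rw [← hwx]
    rw [← Equiv.sum_comp e.symm (fun i => w i • z i)]
    apply Finset.sum_congr rfl
    intro i _
    rw [hg2]

theorem ext_r2 [Finite V] {P : V → ℝ × ℝ} (hP : Gen P) (v : V) (hv : ¬ Ext P v) :
    ∃ a b c, v ≠ a ∧ v ≠ b ∧ v ≠ c ∧ a ≠ b ∧ b ≠ c ∧ a ≠ c ∧
    (chirOf P hP).s a b v = (chirOf P hP).s b c v ∧
      (chirOf P hP).s b c v = (chirOf P hP).s c a v := by
  obtain ⟨n, z, w, hn, hinj, hext, hw, hw1, hwx⟩ := carath (P := P) v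
  have hne : ∀ i, v ≠ z i := fun i h => hv (h ▸ hext i)
  match n, z, w, hn, hinj, hext, hw, hw1, hwx, hne with
  | 0, z, w, _, _, _, _, hw1, _, _ => simp at hw1
  | 1, z, w, _, _, hext, _, hw1, hwx, _ =>
    simp at hw1 hwx
    rw [hw1, one_smul] at hwx
    exfalso
    apply hv
    have := hext 0
    unfold Ext at this ⊢
    rwa [hwx] at this
  | 2, z, w, _, hinj, hext, _, hw1, hwx, hne =>
    exfalso
    rw [Fin.sum_univ_two] at hw1 hwx
    have h01 : z 0 ≠ z 1 := fun h => by simpa using hinj h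
    apply hP (z 0) (z 1) v h01 (hne 0).symm (hne 1).symm
    rw [← hwx, D_comb _ _ _ _ _ _ hw1, D_self1, D_self2]
    ring
  | 3, z, w, _, hinj, hext, hw, hw1, hwx, hne =>
    rw [Fin.sum_univ_three] at hw1 hwx
    have h01 : z 0 ≠ z 1 := fun h => by simpa using hinj h
    have h02 : z 0 ≠ z 2 := fun h => by simpa using hinj h
    have h12 : z 1 ≠ z 2 := fun h => by simpa using hinj h
    have hD := hP _ _ _ h01 h02 h12
    have hvx : (P v).1 = w 0 * (P (z 0)).1 + w 1 * (P (z 1)).1 + w 2 * (P (z 2)).1 := by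
      rw [← hwx]; simp
    have hvy : (P v).2 = w 0 * (P (z 0)).2 + w 1 * (P (z 1)).2 + w 2 * (P (z 2)).2 := by
      rw [← hwx]; simp
    have hw0 : w 0 = 1 - w 1 - w 2 := by linarith
    have e1 : D (P (z 0)) (P (z 1)) (P v) = w 2 * D (P (z 0)) (P (z 1)) (P (z 2)) := by
      unfold D; rw [hvx, hvy, hw0]; ring
    have e2 : D (P (z 1)) (P (z 2)) (P v) = w 0 * D (P (z 0)) (P (z 1)) (P (z 2)) := by
      unfold D; rw [hvx, hvy, hw0]; ring
    have e3 : D (P (z 2)) (P (z 0)) (P v) = w 1 * D (P (z 0)) (P (z 1)) (P (z 2)) := by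
      unfold D; rw [hvx, hvy, hw0]; ring
    have p0 := hw 0
    have p1 := hw 1
    have p2 := hw 2
    refine ⟨z 0, z 1, z 2, hne 0, hne 1, hne 2, h01, h12, h02, ?_, ?_⟩
    · rw [chirOf_s, chirOf_s, dec_eq_iff (hP _ _ _ h01 (hne 0).symm (hne 1).symm)
        (hP _ _ _ h12 (hne 1).symm (hne 2).symm), e1, e2]
      have : w 2 * D (P (z 0)) (P (z 1)) (P (z 2)) * (w 0 * D (P (z 0)) (P (z 1)) (P (z 2))) =
        w 2 * w 0 * (D (P (z 0)) (P (z 1)) (P (z 2)) * D (P (z 0)) (P (z 1)) (P (z 2))) := by ring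
      rw [this]
      have := mul_self_pos.mpr hD
      positivity
    · rw [chirOf_s, chirOf_s, dec_eq_iff (hP _ _ _ h12 (hne 1).symm (hne 2).symm)
        (hP _ _ _ h02.symm (hne 2).symm (hne 0).symm), e2, e3]
      have : w 0 * D (P (z 0)) (P (z 1)) (P (z 2)) * (w 1 * D (P (z 0)) (P (z 1)) (P (z 2))) =
        w 0 * w 1 * (D (P (z 0)) (P (z 1)) (P (z 2)) * D (P (z 0)) (P (z 1)) (P (z 2))) := by ring
      rw [this]
      have := mul_self_pos.mpr hD
      positivity
  | n + 4, _, _, hn, _, _, _, _, _, _ => omega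

theorem hullData [Finite V] {P : V → ℝ × ℝ} (hP : Gen P) : HullData (chirOf P hP) (Ext P) where
  r1 v a b c hv va vb vc ab bc ac := ext_r1 hP v a b c hv va vb vc ab bc ac
  r2 v hv := ext_r2 hP v hv
  hs a b e ab h x xa xb := ext_hs hP a b e ab h x xa xb

/-- crossing segments from signs -/
theorem cross_of_signs {a b c d : ℝ × ℝ} (h1 : D a b c * D a b d < 0)
    (h2 : D c d a * D c d b < 0) : ∃ x, x ∈ segment ℝ a b ∧ x ∈ segment ℝ c d := by
  have key : ∀ {α β : ℝ}, α * β < 0 → 0 ≤ α / (α - β) ∧ 0 ≤ -β / (α - β) ∧ α - β ≠ 0 := by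
    intro α β h
    have hα : α ≠ 0 := by rintro rfl; simp at h
    rcases lt_or_gt_of_ne hα with hα | hα
    · have hβ : 0 < β := by
        by_contra hc
        push Not at hc
        have := mul_nonneg_of_nonpos_of_nonpos hα.le hc
        linarith
      refine ⟨div_nonneg_of_nonpos hα.le (by linarith), div_nonneg_of_nonpos (by linarith)
        (by linarith), by linarith⟩
    · have hβ : β < 0 := by
        by_contra hc
        push Not at hc
        have := mul_nonneg hα.le hc
        linarith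
      refine ⟨div_nonneg hα.le (by linarith), div_nonneg (by linarith) (by linarith), by linarith⟩
  obtain ⟨p1, p2, p3⟩ := key h2
  obtain ⟨q1, q2, q3⟩ := key h1
  have hrel : D c d a - D c d b = -(D a b c - D a b d) := by unfold D; ring
  refine ⟨(-D c d b / (D c d a - D c d b)) • a + (D c d a / (D c d a - D c d b)) • b, ?_, ?_⟩
  · exact ⟨_, _, p2, p1, by field_simp; ring, rfl⟩
  · refine ⟨-D a b d / (D a b c - D a b d), D a b c / (D a b c - D a b d), q2, q1,
      by field_simp; ring, ?_⟩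
    rw [hrel]
    have e1 : -D c d b / -(D a b c - D a b d) = D c d b / (D a b c - D a b d) := neg_div_neg_eq _ _
    have e2 : D c d a / -(D a b c - D a b d) = -D c d a / (D a b c - D a b d) := by
      rw [div_neg, neg_div]
    rw [e1, e2]
    apply Prod.ext
    · simp only [Prod.fst_add, Prod.smul_fst, smul_eq_mul]
      rw [div_mul_eq_mul_div, div_mul_eq_mul_div, div_mul_eq_mul_div, div_mul_eq_mul_div,
        ← add_div, ← add_div]
      congr 1
      unfold D; ring
    · simp only [Prod.snd_add, Prod.smul_snd, smul_eq_mul]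
      rw [div_mul_eq_mul_div, div_mul_eq_mul_div, div_mul_eq_mul_div, div_mul_eq_mul_div,
        ← add_div, ← add_div]
      congr 1
      unfold D; ring

theorem signs_of_cross {a b c d x : ℝ × ℝ} (hx : x ∈ segment ℝ c d) (hx' : x ∈ segment ℝ a b)
    (h1 : D a b c ≠ 0) (h2 : D a b d ≠ 0) : decide (0 < D a b c) ≠ decide (0 < D a b d) := by
  obtain ⟨s, t, hs, ht, hst, rfl⟩ := hx
  obtain ⟨s', t', hs', ht', hst', he⟩ := hx'
  have h0 : D a b (s • c + t • d) = 0 := by
    rw [← he, D_comb _ _ _ _ _ _ hst', D_self1, D_self2]; ring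
  rw [D_comb _ _ _ _ _ _ hst] at h0
  intro h
  rw [dec_eq_iff h1 h2] at h
  rcases lt_or_gt_of_ne h1 with k | k
  · have k2 : D a b d < 0 := by
      by_contra hc
      push Not at hc
      nlinarith [mul_nonpos_of_nonpos_of_nonneg k.le hc]
    rcases hs.lt_or_eq with hs0 | hs0
    · nlinarith [mul_neg_of_pos_of_neg hs0 k, mul_nonpos_of_nonneg_of_nonpos ht k2.le]
    · have : t = 1 := by linarith
      rw [← hs0, this] at h0
      linarith
  · have k2 : 0 < D a b d := by
      by_contra hc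
      push Not at hc
      nlinarith [mul_nonpos_of_nonneg_of_nonpos k.le hc]
    rcases hs.lt_or_eq with hs0 | hs0
    · nlinarith [mul_pos hs0 k, mul_nonneg ht k2.le]
    · have : t = 1 := by linarith
      rw [← hs0, this] at h0
      linarith

/-- segments with one common end point and not on a line meet only there -/
theorem share_end {a b d x : ℝ × ℝ} (h : D a d b ≠ 0) (h1 : x ∈ segment ℝ a b)
    (h2 : x ∈ segment ℝ a d) : x = a := by
  obtain ⟨s, t, hs, ht, hst, rfl⟩ := h1
  obtain ⟨s', t', hs', ht', hst', he⟩ := h2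
  have h0 : D a d (s • a + t • b) = 0 := by
    rw [← he, D_comb _ _ _ _ _ _ hst', D_self1, D_self2]; ring
  rw [D_comb _ _ _ _ _ _ hst, D_self1, mul_zero, zero_add] at h0
  have ht0 : t = 0 := by
    rcases mul_eq_zero.mp h0 with h' | h'
    · exact h'
    · exact absurd h' h
  have hs1 : s = 1 := by linarith
  rw [ht0, hs1]
  simp

end Pool.Agent.LibOT
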